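import Pool.Agent.H579R3.SD
import Pool.Agent.H566W.Ana

set_option autoImplicit false

/-!
Preservation of the countable-or-perfect dichotomy under labelled sums: core.
-/

namespace Pool.Agent.Q214.WR

open Set Filter Topology MeasureTheory Pool.Agent.H579R3.SV

/-- `V` meets countably many classes of `R`, or there is a Borel map from the Cantor space to `V`
with pairwise `R`-inequivalent values. -/
def Dich {Z : Type} [MeasurableSpace Z] (R : Z → Z → Prop) (V : Set Z) : Prop :=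
  (∃ S ⊆ V, S.Countable ∧ ∀ y ∈ V, ∃ z ∈ S, R y z) ∨
    ∃ f : (ℕ → Bool) → Z, Measurable f ∧ (∀ b, f b ∈ V) ∧ ∀ b b', b ≠ b' → ¬ R (f b) (f b')

/-- a Borel map on the Cantor space is continuous on a perfect set -/
theorem cont_of_meas {Z : Type} [TopologicalSpace Z] [PolishSpace Z] [MeasurableSpace Z]
    [BorelSpace Z] {f : (ℕ → Bool) → Z} (hf : Measurable f) :
    ∃ g : (ℕ → Bool) → (ℕ → Bool), Function.Injective g ∧ Continuous fun b => f (g b) := by
  haveI : PolishSpace (ℕ → Bool) := polish_cantor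
  obtain ⟨t, ht, hc, hp⟩ := hf.exists_continuous
  obtain ⟨g, -, hg1, hg2⟩ := @IsClosed.exists_nat_bool_injection_of_not_countable (ℕ → Bool) t hp
    univ (@isClosed_univ _ t) (fun h => not_countable (countable_univ_iff.1 h))
  exact ⟨g, hg2, @Continuous.comp (ℕ → Bool) (ℕ → Bool) Z Pi.topologicalSpace t _ g f hc hg1⟩

/-- an injective-like family with countable sections yields a perfect set -/
theorem perfect_of_sections {Z : Type} [TopologicalSpace Z] [PolishSpace Z] [MeasurableSpace Z]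
    [BorelSpace Z] {W : Z → Z → Prop} (hW : AnalyticSet {q : Z × Z | W q.1 q.2})
    {V : Set Z} {h : (ℕ → Bool) → Z} (hm : Measurable h) (hV : ∀ b, h b ∈ V)
    (hc : ∀ b, {b' | W (h b) (h b')}.Countable) :
    ∃ f : (ℕ → Bool) → Z, Measurable f ∧ (∀ b, f b ∈ V) ∧
      ∀ b b', b ≠ b' → ¬ W (f b) (f b') := by
  obtain ⟨g, hgi, hgc⟩ := cont_of_meas hm
  haveI : PolishSpace (ℕ → Bool) := polish_cantor
  obtain ⟨k, hk1, hk2⟩ := Pool.Agent.H566W.perfect_independent
    (fun b b' => W (h (g b)) (h (g b')))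
    (hW.preimage (f := fun p : (ℕ → Bool) × (ℕ → Bool) => (h (g p.1), h (g p.2)))
      ((hgc.comp continuous_fst).prodMk (hgc.comp continuous_snd)))
    (fun b => (hc (g b)).preimage hgi)
  exact ⟨fun b => h (g (k b)), (hgc.comp hk1).measurable, fun b => hV _, hk2⟩

section Swap

variable {X Y Z : Type} [TopologicalSpace X] [PolishSpace X] [MeasurableSpace X] [BorelSpace X]
  [TopologicalSpace Y] [PolishSpace Y] [MeasurableSpace Y] [BorelSpace Y]
  [TopologicalSpace Z] [PolishSpace Z] [MeasurableSpace Z] [BorelSpace Z]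

/-- an invariant Borel set is invariant under a Borel relation containing the analytic one -/
theorem swapG {E : X → X → Prop} (hEa : AnalyticSet {q : X × X | E q.1 q.2})
    {p : Z → Y} (hp : Continuous p) {c : ℕ → Z → X} (hc : ∀ n, Continuous (c n))
    {A : Set Z} (hA : MeasurableSet A)
    (hinv : ∀ y z : Z, p y = p z → (∀ i, E (c i y) (c i z)) → y ∈ A → z ∈ A) :
    ∃ R : Set (X × X), MeasurableSet R ∧ {q : X × X | E q.1 q.2} ⊆ R ∧
      ∀ y z : Z, p y = p z → (∀ i, (c i y, c i z) ∈ R) → y ∈ A → z ∈ A := by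
  have cc : ∀ i, Continuous fun q : Z × Z => (c i q.1, c i q.2) := fun i =>
    ((hc i).comp continuous_fst).prodMk ((hc i).comp continuous_snd)
  have hD : MeasurableSet {q : Z × Z | (q.1 ∈ A ∧ q.2 ∉ A) ∧ p q.1 = p q.2} := by
    refine ((measurable_fst hA).inter (measurable_snd hA.compl)).inter ?_
    exact measurableSet_eq_fun (hp.measurable.comp measurable_fst)
      (hp.measurable.comp measurable_snd)
  obtain ⟨C, hC1, hC2, hC3⟩ := novikov' (S := fun i =>
    {q : Z × Z | (q.1 ∈ A ∧ q.2 ∉ A) ∧ p q.1 = p q.2} ∩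
      ((fun q : Z × Z => (c i q.1, c i q.2)) ⁻¹' {q : X × X | E q.1 q.2}))
    (fun i => ana_inter hD.analyticSet (hEa.preimage (cc i))) (by
      rw [eq_empty_iff_forall_notMem]
      intro q hq
      rw [mem_iInter] at hq
      exact (hq 0).1.1.2 (hinv _ _ (hq 0).1.2 (fun i => (hq i).2) (hq 0).1.1.1))
  have hN : AnalyticSet (⋃ i, (fun q : Z × Z => (c i q.1, c i q.2)) ''
      ({q : Z × Z | (q.1 ∈ A ∧ q.2 ∉ A) ∧ p q.1 = p q.2} \ C i)) :=
    AnalyticSet.iUnion fun i => (hD.diff (hC1 i)).analyticSet.image_of_continuous (cc i)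
  obtain ⟨R, hR1, hR2, hR3⟩ := hEa.measurablySeparable hN (by
    rw [disjoint_left]
    rintro q hq hq2
    obtain ⟨i, ⟨p, ⟨h1, h2⟩, rfl⟩⟩ := mem_iUnion.1 hq2
    exact h2 (hC2 i ⟨h1, hq⟩))
  refine ⟨R, hR3, hR1, fun y z hpe h hy => ?_⟩
  by_contra hz
  have : (y, z) ∈ ⋂ n, C n := by
    refine mem_iInter.2 fun i => ?_
    by_contra hi
    exact disjoint_left.1 hR2 (mem_iUnion.2 ⟨i, (y, z), ⟨⟨⟨hy, hz⟩, hpe⟩, hi⟩, rfl⟩) (h i)
  rw [hC3] at this
  exact this

end Swap

/-- the relation of the labelled sum: `T` are the isomorphisms of the skeletons -/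
def Lab {X Y I : Type} (T : Y → (I → I) → Y → Prop) (E : X → X → Prop)
    (z z' : Y × (I → X)) : Prop :=
  ∃ π : I → I, T z.1 π z'.1 ∧ ∀ i, E (z.2 i) (z'.2 (π i))

/-- the isomorphisms of the skeletons form a groupoid of permutations of `I` -/
structure Grp {Y I : Type} (T : Y → (I → I) → Y → Prop) : Prop where
  refl : ∀ y, T y id y
  symm : ∀ y π y', T y π y' → ∃ ρ, T y' ρ y ∧ (∀ i, ρ (π i) = i) ∧ ∀ i, π (ρ i) = i
  trans : ∀ y π y' ρ y'', T y π y' → T y' ρ y'' → T y (ρ ∘ π) y''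

theorem Lab_equiv {X Y I : Type} {T : Y → (I → I) → Y → Prop} (hT : Grp T)
    {E : X → X → Prop} (hE : Equivalence E) : Equivalence (Lab T E) where
  refl z := ⟨id, hT.refl _, fun _ => hE.refl _⟩
  symm := by
    rintro z z' ⟨π, h1, h2⟩
    obtain ⟨ρ, h3, h4, h5⟩ := hT.symm _ _ _ h1
    refine ⟨ρ, h3, fun i => ?_⟩
    have := h2 (ρ i)
    rw [h5] at this
    exact hE.symm this
  trans := by
    rintro z z' z'' ⟨π, h1, h2⟩ ⟨ρ, h3, h4⟩
    exact ⟨_, hT.trans _ _ _ _ _ h1 h3, fun i => hE.trans (h2 i) (h4 _)⟩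

section Core

variable {X Y I : Type} [TopologicalSpace X] [PolishSpace X] [MeasurableSpace X] [BorelSpace X]
  [TopologicalSpace Y] [PolishSpace Y] [MeasurableSpace Y] [BorelSpace Y]
  [Countable I]

theorem Lab_analytic {T : Y → (I → I) → Y → Prop} {E : X → X → Prop}
    (hTa : letI : TopologicalSpace I := ⊥
      AnalyticSet {q : Y × (I → I) × Y | T q.1 q.2.1 q.2.2})
    (hEa : AnalyticSet {q : X × X | E q.1 q.2}) :
    AnalyticSet {q : (Y × (I → X)) × (Y × (I → X)) | Lab T E q.1 q.2} := by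
  letI : TopologicalSpace I := ⊥
  haveI : DiscreteTopology I := ⟨rfl⟩
  haveI : PolishSpace I := by infer_instance
  have h1 : {q : (Y × (I → X)) × (Y × (I → X)) | Lab T E q.1 q.2} =
      (fun r : ((Y × (I → X)) × (Y × (I → X))) × (I → I) => r.1) ''
        (((fun r : ((Y × (I → X)) × (Y × (I → X))) × (I → I) =>
            (r.1.1.1, r.2, r.1.2.1)) ⁻¹' {q : Y × (I → I) × Y | T q.1 q.2.1 q.2.2}) ∩
          ⋂ i, ⋃ j, ((fun r : ((Y × (I → X)) × (Y × (I → X))) × (I → I) => r.2 i) ⁻¹' {j}) ∩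
            ((fun r : ((Y × (I → X)) × (Y × (I → X))) × (I → I) =>
              (r.1.1.2 i, r.1.2.2 j)) ⁻¹' {q : X × X | E q.1 q.2})) := by
    ext q
    constructor
    · rintro ⟨π, h1, h2⟩
      refine ⟨(q, π), ⟨h1, mem_iInter.2 fun i => mem_iUnion.2 ⟨π i, rfl, h2 i⟩⟩, rfl⟩
    · rintro ⟨⟨q', π⟩, ⟨h1, h2⟩, rfl⟩
      refine ⟨π, h1, fun i => ?_⟩
      obtain ⟨j, h3, h4⟩ := mem_iUnion.1 (mem_iInter.1 h2 i)
      have : π i = j := h3
      rw [this]
      exact h4
  rw [h1]
  refine AnalyticSet.image_of_continuous ?_ continuous_fst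
  refine ana_inter (hTa.preimage (by fun_prop)) ?_
  rcases isEmpty_or_nonempty I with hI | hI
  · rw [iInter_of_empty]
    exact isClosed_univ.analyticSet
  · refine AnalyticSet.iInter fun i => AnalyticSet.iUnion fun j => ana_inter ?_
      (hEa.preimage (by fun_prop))
    exact ((isClosed_discrete {j}).preimage (by fun_prop)).analyticSet

end Core

end Pool.Agent.Q214.WR
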