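import Pool.Agent.Q215.WR.Stm

/-!
# Project WR (helper215), job A (helper214)
-/

set_option autoImplicit false

open Set Topology Filter

namespace Q214.WR.A

open Pool.Agent.Q215.WR

section f

variable {f : ℝ → ℝ}

lemma attained (hf : Continuous f) (hnc : ∀ x y, x < y → ∃ z, x < z ∧ z < y ∧ f z ≠ f x)
    {c d : ℝ} (hcd : c < d) : ∃ s t : ℝ, s < t ∧ ∀ y, s < y → y < t → ∃ w ∈ Ioo c d, f w = y := by
  obtain ⟨c1, hc1, hc1d⟩ := exists_between hcd
  obtain ⟨z, hz1, hz2, hne⟩ := hnc c1 d hc1d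
  have key : ∀ y, y ∈ uIcc (f c1) (f z) → ∃ w ∈ Ioo c d, f w = y := by
    intro y hy
    obtain ⟨w, hw, hwy⟩ := intermediate_value_uIcc hf.continuousOn hy
    rw [uIcc_of_le hz1.le] at hw
    exact ⟨w, ⟨by linarith [hw.1], by linarith [hw.2]⟩, hwy⟩
  rcases lt_or_gt_of_ne hne with h | h
  · refine ⟨f z, f c1, h, fun y h1 h2 => key y ?_⟩
    rw [uIcc_of_ge h.le]
    exact ⟨h1.le, h2.le⟩
  · refine ⟨f c1, f z, h, fun y h1 h2 => key y ?_⟩
    rw [uIcc_of_le h.le]
    exact ⟨h1.le, h2.le⟩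

lemma rat_val (hf : Continuous f) (hnc : ∀ x y, x < y → ∃ z, x < z ∧ z < y ∧ f z ≠ f x)
    {c d : ℝ} (hcd : c < d) : ∃ w ∈ Ioo c d, ∃ r : ℚ, f w = r := by
  obtain ⟨s, t, hst, h⟩ := attained hf hnc hcd
  obtain ⟨r, h1, h2⟩ := exists_rat_btwn hst
  obtain ⟨w, hw, hwr⟩ := h r h1 h2
  exact ⟨w, hw, r, hwr⟩

lemma irr_val (hf : Continuous f) (hnc : ∀ x y, x < y → ∃ z, x < z ∧ z < y ∧ f z ≠ f x)
    {c d : ℝ} (hcd : c < d) : ∃ w ∈ Ioo c d, f w ∉ QQ := by
  obtain ⟨s, t, hst, h⟩ := attained hf hnc hcd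
  obtain ⟨r, hr, h1, h2⟩ := exists_irrational_btwn hst
  obtain ⟨w, hw, hwr⟩ := h r h1 h2
  exact ⟨w, hw, by rw [hwr]; exact hr⟩

/-- the small perfect pieces of the level sets -/
lemma piece (hperf : S_perf) (hf : Continuous f)
    (hlim : ∀ (q : ℚ) (x : ℝ), f x = q → Lim (f ⁻¹' {(q : ℝ)}) x) {a b : ℝ} {q : ℚ}
    (h : ∃ x, a < x ∧ x < b ∧ f x = q) :
    ∃ M : Set ℝ, M.Countable ∧ M.Nonempty ∧ (∀ x ∈ M, Two M x) ∧
      ∀ x ∈ closure M, f x = q ∧ a < x ∧ x < b := by
  obtain ⟨x0, hax, hxb, hfx⟩ := h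
  obtain ⟨a', ha1, ha2⟩ := exists_between hax
  obtain ⟨b', hb1, hb2⟩ := exists_between hxb
  set X : Set ℝ := closure (f ⁻¹' {(q : ℝ)} ∩ Ioo a' b') with hX
  have hXI : X ⊆ Icc a' b' := by
    have h1 : X ⊆ closure (Icc a' b') := closure_mono (inter_subset_right.trans Ioo_subset_Icc_self)
    rwa [isClosed_Icc.closure_eq] at h1
  have hXf : ∀ x ∈ X, f x = q := by
    intro x hx
    have h1 : X ⊆ closure (f ⁻¹' {(q : ℝ)}) := closure_mono inter_subset_left
    rw [(isClosed_singleton.preimage hf).closure_eq] at h1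
    exact h1 hx
  have hcomp : IsCompact X := isCompact_Icc.of_isClosed_subset isClosed_closure hXI
  have hne : X.Nonempty := ⟨x0, subset_closure ⟨hfx, ha2, hb1⟩⟩
  have hL : ∀ x ∈ X, Lim X x := by
    intro x hx ε hε
    obtain ⟨y, hy, hyε⟩ := Metric.mem_closure_iff.1 hx ε hε
    by_cases hyx : y = x
    · subst hyx
      obtain ⟨hyq, hya, hyb⟩ := hy
      obtain ⟨z, hz, hzy, hzε⟩ := hlim q y hyq (min ε (min (y - a') (b' - y)))
        (lt_min hε (lt_min (by linarith) (by linarith)))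
      have h1 := min_le_left ε (min (y - a') (b' - y))
      have h2 := (min_le_right ε (min (y - a') (b' - y))).trans (min_le_left _ _)
      have h3 := (min_le_right ε (min (y - a') (b' - y))).trans (min_le_right _ _)
      have h4 := abs_lt.1 (hzε.trans_le h2)
      have h5 := abs_lt.1 (hzε.trans_le h3)
      exact ⟨z, subset_closure ⟨hz, by linarith, by linarith⟩, hzy, hzε.trans_le h1⟩
    · refine ⟨y, subset_closure hy, hyx, ?_⟩
      rw [abs_sub_comm, ← Real.dist_eq]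
      exact hyε
  obtain ⟨M, hMc, hMn, -, hMt, hMX, -⟩ := hperf X hcomp hne hL ∅ countable_empty
  refine ⟨M, hMc, hMn, hMt, fun x hx => ⟨hXf x (hMX hx), ?_, ?_⟩⟩
  · linarith [(hXI (hMX hx)).1]
  · linarith [(hXI (hMX hx)).2]

end f

section p

variable {p : ℝ → ℝ}

lemma p_ivt (hpc : Continuous p) {x1 x2 w : ℝ} (h : x1 ≤ x2) (h1 : p x1 ≤ w) (h2 : w ≤ p x2) :
    ∃ t ∈ Icc x1 x2, p t = w := by
  obtain ⟨t, ht, hw⟩ := intermediate_value_Icc h hpc.continuousOn ⟨h1, h2⟩
  exact ⟨t, ht, hw⟩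

lemma p_lt (hpm : Monotone p) {x y : ℝ} (h : p x < p y) : x < y := by
  by_contra hcon
  exact absurd (hpm (not_lt.1 hcon)) (not_le.2 h)

lemma fibre (hpm : Monotone p) (hpc : Continuous p) (hps : Function.Surjective p) (y : ℝ) :
    ∃ l h : ℝ, IsLeast {t | p t = y} l ∧ IsGreatest {t | p t = y} h := by
  obtain ⟨t0, h0⟩ := hps y
  obtain ⟨t1, h1⟩ := hps (y - 1)
  obtain ⟨t2, h2⟩ := hps (y + 1)
  have hsub : {t | p t = y} ⊆ Icc t1 t2 := by
    intro t ht
    have ht' : p t = y := ht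
    exact ⟨(p_lt hpm (by rw [h1, ht']; linarith)).le, (p_lt hpm (by rw [h2, ht']; linarith)).le⟩
  have hcl : IsClosed {t | p t = y} := isClosed_eq hpc continuous_const
  have hco : IsCompact {t | p t = y} := isCompact_Icc.of_isClosed_subset hcl hsub
  obtain ⟨l, hl⟩ := hco.exists_isLeast ⟨t0, h0⟩
  obtain ⟨h, hh⟩ := hco.exists_isGreatest ⟨t0, h0⟩
  exact ⟨l, h, hl, hh⟩

end p

theorem sa : S_A := by
  classical
  rintro ⟨f, hf, hnc, hlim⟩ hplat hperf
  -- the countable set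
  have hpiece : ∀ i : ℚ × ℚ × ℚ, ∃ M : Set ℝ, M.Countable ∧
      (∀ x ∈ closure M, f x = i.2.2 ∧ (i.1 : ℝ) < x ∧ x < i.2.1) ∧ (∀ x ∈ M, Two M x) ∧
      ((∃ x, (i.1 : ℝ) < x ∧ x < i.2.1 ∧ f x = i.2.2) → M.Nonempty) := by
    intro i
    by_cases h : ∃ x, (i.1 : ℝ) < x ∧ x < i.2.1 ∧ f x = i.2.2
    · obtain ⟨M, h1, h2, h3, h4⟩ := piece hperf hf hlim h
      exact ⟨M, h1, h4, h3, fun _ => h2⟩
    · refine ⟨∅, countable_empty, ?_, ?_, fun h' => absurd h' h⟩
      · intro x hx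
        rw [closure_empty] at hx
        exact absurd hx (notMem_empty x)
      · intro x hx
        exact absurd hx (notMem_empty x)
  choose M hMc hMcl hMt hMn using hpiece
  obtain ⟨p, hpm, hpc, hps, hflat⟩ := hplat (⋃ i, M i) (countable_iUnion hMc)
  have hNX : ∀ y ∈ ⋃ i, M i, f y ∈ QQ := by
    intro y hy
    obtain ⟨i, hi⟩ := mem_iUnion.1 hy
    exact ⟨i.2.2, (hMcl i y (subset_closure hi)).1.symm⟩
  set A : Set ℝ := (fun x => f (p x)) ⁻¹' QQ with hA
  have hfp : Continuous fun x => f (p x) := hf.comp hpc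
  -- irrational values in the image of a nondegenerate interval
  have hout : ∀ x1 x2 : ℝ, x1 < x2 → p x1 < p x2 → ∃ t ∈ Icc x1 x2, t ∉ A := by
    intro x1 x2 hx hp
    obtain ⟨w, hw, hwq⟩ := irr_val hf hnc hp
    obtain ⟨t, ht, htw⟩ := p_ivt hpc hx.le hw.1.le hw.2.le
    refine ⟨t, ht, fun htA => hwq ?_⟩
    rw [← htw]
    exact htA
  have hin : ∀ x1 x2 : ℝ, x1 < x2 → ∃ t ∈ Icc x1 x2, t ∈ A := by
    intro x1 x2 hx
    rcases (hpm hx.le).lt_or_eq with hp | hp
    · obtain ⟨w, hw, r, hwr⟩ := rat_val hf hnc hp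
      obtain ⟨t, ht, htw⟩ := p_ivt hpc hx.le hw.1.le hw.2.le
      refine ⟨t, ht, r, ?_⟩
      show (r : ℝ) = f (p t)
      rw [htw, hwr]
    · refine ⟨x1, ⟨le_rfl, hx.le⟩, ?_⟩
      exact hNX _ ((hflat (p x1)).1 ⟨x1, x2, hx, rfl, hp.symm⟩)
  have hint : interior Aᶜ = ∅ := by
    rw [Set.eq_empty_iff_forall_notMem]
    intro x hx
    obtain ⟨δ, hδ, hb⟩ := Metric.isOpen_iff.1 isOpen_interior x hx
    obtain ⟨t, ht, htA⟩ := hin (x - δ / 2) (x + δ / 2) (by linarith)
    have : t ∈ interior Aᶜ := hb (by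
      rw [Metric.mem_ball, Real.dist_eq, abs_lt]
      constructor
      · linarith [ht.1]
      · linarith [ht.2])
    exact interior_subset this htA
  have hAc : ∃ x, x ∉ A := by
    obtain ⟨x1, h1⟩ := hps 0
    obtain ⟨x2, h2⟩ := hps 1
    have h12 : p x1 < p x2 := by rw [h1, h2]; norm_num
    obtain ⟨t, -, ht⟩ := hout x1 x2 (p_lt hpm h12) h12
    exact ⟨t, ht⟩
  refine ⟨A, ⟨⟨fun x => f (p x), hfp, rfl⟩, ?_, ?_⟩, ?_, hint⟩
  · -- not open
    intro hop
    obtain ⟨w, hw, r, hwr⟩ := rat_val hf hnc (show (0 : ℝ) < 1 by norm_num)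
    obtain ⟨a, ha1, ha2⟩ := exists_rat_btwn hw.1
    obtain ⟨b, hb1, hb2⟩ := exists_rat_btwn hw.2
    obtain ⟨y, hy⟩ := hMn (a, b, r) ⟨w, ha2, hb1, hwr⟩
    have hyN : f y ∈ QQ := hNX y (mem_iUnion.2 ⟨_, hy⟩)
    obtain ⟨l, h, -, hh⟩ := fibre hpm hpc hps y
    have hph : p h = y := hh.1
    have hhA : h ∈ A := by
      show f (p h) ∈ QQ
      rw [hph]; exact hyN
    obtain ⟨δ, hδ, hb⟩ := Metric.isOpen_iff.1 hop h hhA
    have hlt : p h < p (h + δ / 2) := by
      refine lt_of_le_of_ne (hpm (by linarith)) fun he => ?_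
      have := hh.2 (show p (h + δ / 2) = y by rw [← he, hph])
      linarith
    obtain ⟨t, ht, htA⟩ := hout h (h + δ / 2) (by linarith) hlt
    apply htA
    apply hb
    rw [Metric.mem_ball, Real.dist_eq, abs_lt]
    constructor
    · linarith [ht.1]
    · linarith [ht.2]
  · -- not closed
    intro hcl
    obtain ⟨x, hx⟩ := hAc
    have : x ∈ interior Aᶜ := by
      rw [hcl.isOpen_compl.interior_eq]
      exact hx
    rw [hint] at this
    exact this
  · -- PT
    rintro u v ⟨x1, hx1, hx1A⟩ ⟨x2, hx2, hx2A⟩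
    have hne : p x1 ≠ p x2 := by
      intro he
      apply hx2A
      show f (p x2) ∈ QQ
      rw [← he]
      exact hx1A
    obtain ⟨s, t, hs, ht, hst⟩ : ∃ s t : ℝ, s ∈ Ioo u v ∧ t ∈ Ioo u v ∧ p s < p t := by
      rcases lt_or_gt_of_ne hne with h | h
      · exact ⟨x1, x2, hx1, hx2, h⟩
      · exact ⟨x2, x1, hx2, hx1, h⟩
    have hpre : ∀ x, p s < p x → p x < p t → u < x ∧ x < v := by
      intro x h1 h2
      exact ⟨hs.1.trans (p_lt hpm h1), (p_lt hpm h2).trans ht.2⟩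
    obtain ⟨w, hw, r, hwr⟩ := rat_val hf hnc hst
    obtain ⟨a, ha1, ha2⟩ := exists_rat_btwn hw.1
    obtain ⟨b, hb1, hb2⟩ := exists_rat_btwn hw.2
    have hMne := hMn (a, b, r) ⟨w, ha2, hb1, hwr⟩
    have hMcl' := hMcl (a, b, r)
    have hMt' := hMt (a, b, r)
    have hMN : ∀ y ∈ M (a, b, r), y ∈ ⋃ i, M i := fun y hy => mem_iUnion.2 ⟨_, hy⟩
    generalize M (a, b, r) = M0 at hMne hMcl' hMt' hMN
    have hMy : ∀ y ∈ closure M0, p s < y ∧ y < p t := by
      intro y hy
      obtain ⟨-, h1, h2⟩ := hMcl' y hy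
      have h1' : (a : ℝ) < y := h1
      have h2' : y < (b : ℝ) := h2
      exact ⟨by linarith, by linarith⟩
    choose lo hi hlo hhi using fibre hpm hpc hps
    have plo : ∀ y, p (lo y) = y := fun y => (hlo y).1
    have phi' : ∀ y, p (hi y) = y := fun y => (hhi y).1
    have hlt_lo : ∀ y x, x < lo y → p x < y := by
      intro y x hx
      refine lt_of_le_of_ne ?_ fun he => ?_
      · have := hpm hx.le
        rwa [plo] at this
      · have := (hlo y).2 (show p x = y from he)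
        linarith
    have hlt_hi : ∀ y x, hi y < x → y < p x := by
      intro y x hx
      refine lt_of_le_of_ne ?_ fun he => ?_
      · have := hpm hx.le
        rwa [phi'] at this
      · have := (hhi y).2 (show p x = y from he.symm)
        linarith
    refine ⟨(fun y => (lo y, hi y)) '' M0, hMne.image _, ?_, ?_, ?_⟩
    · rintro _ ⟨y, hy, rfl⟩
      have hyc := subset_closure hy
      have hyN := hNX y (hMN y hy)
      obtain ⟨c, d, hcd, hpc', hpd⟩ := (hflat y).2 (hMN y hy)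
      have hlh : lo y < hi y := by
        have h1 := (hlo y).2 (show p c = y from hpc')
        have h2 := (hhi y).2 (show p d = y from hpd)
        linarith
      have hIcc : Icc (lo y) (hi y) ⊆ A := by
        intro x hx
        have h1 := hpm hx.1
        have h2 := hpm hx.2
        rw [plo] at h1
        rw [phi'] at h2
        show f (p x) ∈ QQ
        rw [le_antisymm h2 h1]
        exact hyN
      refine ⟨⟨hlh, hIcc, ?_, ?_⟩, ?_, ?_⟩
      · refine ⟨subset_closure (hIcc ⟨le_rfl, hlh.le⟩), ?_⟩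
        have : lo y ∈ closure Aᶜ := by
          rw [Metric.mem_closure_iff]
          intro ε hε
          have h1 := hlt_lo y (lo y - ε / 2) (by linarith)
          obtain ⟨t', ht', htA⟩ := hout (lo y - ε / 2) (lo y) (by linarith) (by rw [plo]; exact h1)
          refine ⟨t', htA, ?_⟩
          rw [Real.dist_eq, abs_lt]
          constructor
          · linarith [ht'.2]
          · linarith [ht'.1]
        rw [closure_compl] at this
        exact this
      · refine ⟨subset_closure (hIcc ⟨hlh.le, le_rfl⟩), ?_⟩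
        have : hi y ∈ closure Aᶜ := by
          rw [Metric.mem_closure_iff]
          intro ε hε
          have h1 := hlt_hi y (hi y + ε / 2) (by linarith)
          obtain ⟨t', ht', htA⟩ := hout (hi y) (hi y + ε / 2) (by linarith) (by rw [phi']; exact h1)
          refine ⟨t', htA, ?_⟩
          rw [Real.dist_eq, abs_lt]
          constructor
          · linarith [ht'.2]
          · linarith [ht'.1]
        rw [closure_compl] at this
        exact this
      · obtain ⟨h1, h2⟩ := hMy y hyc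
        exact (hpre (lo y) (by rw [plo]; exact h1) (by rw [plo]; exact h2)).1
      · obtain ⟨h1, h2⟩ := hMy y hyc
        exact (hpre (hi y) (by rw [phi']; exact h1) (by rw [phi']; exact h2)).2
    · rintro _ ⟨y, hy, rfl⟩ ε hε
      constructor
      · have h1 := hlt_lo y (lo y - ε) (by linarith)
        obtain ⟨⟨z, hz, hz1, hz2⟩, -⟩ := hMt' y hy (y - p (lo y - ε)) (by linarith)
        refine ⟨_, ⟨z, hz, rfl⟩, ?_, ?_⟩
        · exact p_lt hpm (by rw [plo]; linarith)
        · exact p_lt hpm (by rw [plo, phi']; exact hz2)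
      · have h1 := hlt_hi y (hi y + ε) (by linarith)
        obtain ⟨-, z, hz, hz1, hz2⟩ := hMt' y hy (p (hi y + ε) - y) (by linarith)
        refine ⟨_, ⟨z, hz, rfl⟩, ?_, ?_⟩
        · exact p_lt hpm (by rw [plo, phi']; exact hz1)
        · exact p_lt hpm (by rw [phi']; linarith)
    · have hsub : (⋃ q ∈ (fun y => (lo y, hi y)) '' M0, Icc q.1 q.2) ⊆ p ⁻¹' closure M0 := by
        intro x hx
        obtain ⟨q, ⟨y, hy, rfl⟩, hxq⟩ := mem_iUnion₂.1 hx
        have h1 := hpm hxq.1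
        have h2 := hpm hxq.2
        simp only [plo] at h1
        simp only [phi'] at h2
        show p x ∈ closure M0
        rw [le_antisymm h2 h1]
        exact subset_closure hy
      have hcl : closure (⋃ q ∈ (fun y => (lo y, hi y)) '' M0, Icc q.1 q.2) ⊆ p ⁻¹' closure M0 :=
        closure_minimal hsub (isClosed_closure.preimage hpc)
      intro x hx
      have hx' : p x ∈ closure M0 := hcl hx
      obtain ⟨h1, h2⟩ := hMy _ hx'
      refine ⟨?_, hpre x h1 h2⟩
      exact ⟨r, (hMcl' _ hx').1.symm⟩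

end Q214.WR.A
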