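import Pool.Agent.Q214.WR.A

set_option autoImplicit false

/-!
Preservation of the countable-or-perfect dichotomy under labelled sums: the theorem.
-/

namespace Pool.Agent.Q214.WR

open Set Filter Topology MeasureTheory Pool.Agent.H579R3.SV

variable {X Y I : Type} [TopologicalSpace X] [PolishSpace X] [MeasurableSpace X] [BorelSpace X]
  [TopologicalSpace Y] [PolishSpace Y] [MeasurableSpace Y] [BorelSpace Y]
  [Countable I] [Nonempty I]

/-- The dichotomy passes from the labels `X / E` and from the skeletons with labels in `ℕ` to the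
skeletons with labels in `X / E`. -/
theorem core {T : Y → (I → I) → Y → Prop} (hT : Grp T)
    (hTa : letI : TopologicalSpace I := ⊥
      AnalyticSet {q : Y × (I → I) × Y | T q.1 q.2.1 q.2.2})
    {E : X → X → Prop} (hE : Equivalence E) (hEa : AnalyticSet {q : X × X | E q.1 q.2})
    (hEV : ∀ V : Set X, MeasurableSet V → (∀ x ∈ V, ∀ x', E x x' → x' ∈ V) → Dich E V)
    {Y0 : Set Y}
    (hYV : ∀ V : Set (Y × (I → ℕ)), MeasurableSet V → (∀ z ∈ V, z.1 ∈ Y0) →
      (∀ z ∈ V, ∀ z', Lab T (fun m n : ℕ => m = n) z z' → z' ∈ V) →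
        Dich (Lab T (fun m n : ℕ => m = n)) V)
    (A : Set (Y × (I → X))) (hA : MeasurableSet A) (hA0 : ∀ z ∈ A, z.1 ∈ Y0)
    (hinv : ∀ z ∈ A, ∀ z', Lab T E z z' → z' ∈ A) : Dich (Lab T E) A := by
  classical
  have hW := Lab_analytic (X := X) hTa hEa
  have hWe := Lab_equiv hT hE
  obtain ⟨e, he⟩ := exists_surjective_nat I
  obtain ⟨R, hR, hER, hRsw⟩ := swapG (Z := Y × (I → X)) hEa (p := Prod.fst) continuous_fst
    (c := fun n z => z.2 (e n)) (fun n => (continuous_apply _).comp continuous_snd) hA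
    (fun z z' h1 h2 hz => hinv z hz z' ⟨id, by
      rw [show z'.1 = z.1 from h1.symm]; exact hT.refl _, fun i => by
      obtain ⟨n, rfl⟩ := he i
      exact h2 n⟩)
  obtain ⟨F, hF, hFm, hEF, hFR⟩ := interp hE hEa hR hER
  have hsw : ∀ z z' : Y × (I → X), z.1 = z'.1 → (∀ i, F (z.2 i) (z'.2 i)) → z ∈ A → z' ∈ A :=
    fun z z' h1 h2 hz => hRsw z z' h1 (fun n => hFR _ _ (h2 _)) hz
  have hAa : AnalyticSet A := hA.analyticSet
  have hFx : ∀ x, MeasurableSet {x' | F x x'} := fun x =>
    (measurable_const.prodMk measurable_id) hFm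
  by_cases hP : ∃ i, ∃ h : (ℕ → Bool) → Y × (I → X), Continuous h ∧ (∀ b, h b ∈ A) ∧
      ∀ b b', b ≠ b' → ¬ F ((h b).2 i) ((h b').2 i)
  · right
    obtain ⟨i, h, h1, h2, h3⟩ := hP
    refine perfect_of_sections hW h1.measurable h2 fun b => ?_
    have hsub : {b' | Lab T E (h b) (h b')} ⊆ ⋃ j : I, {b' | F ((h b).2 j) ((h b').2 i)} := by
      rintro b' ⟨π, hπ, hπE⟩
      obtain ⟨ρ, -, -, h4⟩ := hT.symm _ _ _ hπ
      have := hπE (ρ i)
      rw [h4] at this
      exact mem_iUnion.2 ⟨ρ i, hEF _ _ this⟩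
    refine (countable_iUnion fun j => Set.Subsingleton.countable ?_).mono hsub
    intro b1 hb1 b2 hb2
    by_contra hne
    exact h3 b1 b2 hne (hF.trans (hF.symm hb1) hb2)
  · have hS : ∀ i, ∃ S ⊆ A, S.Countable ∧ ∀ x ∈ A, ∃ y ∈ S, F (x.2 i) (y.2 i) := by
      intro i
      have hm1 : Measurable fun q : (Y × (I → X)) × (Y × (I → X)) => (q.1.2 i, q.2.2 i) :=
        (Continuous.prodMk ((continuous_apply i).comp (continuous_snd.comp continuous_fst))
          ((continuous_apply i).comp (continuous_snd.comp continuous_snd))).measurable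
      rcases silver (X := Y × (I → X)) (E := fun y z => F (y.2 i) (z.2 i))
        ⟨fun _ => hF.refl _, fun h => hF.symm h, fun h h' => hF.trans h h'⟩
        (hm1 hFm) hAa with h | ⟨h, h1, h2, h3⟩
      · exact h
      · exact absurd ⟨i, h, h1, h2, h3⟩ hP
    choose S hSA hSc hS2 using hS
    have hFE : ∀ x : X, Dich E {x' | F x x'} := fun x =>
      hEV _ (hFx x) fun x1 h1 x2 h2 => hF.trans h1 (hEF _ _ h2)
    by_cases hQ : ∃ i, ∃ s ∈ S i, ∃ f : (ℕ → Bool) → X, Measurable f ∧
        (∀ b, F (s.2 i) (f b)) ∧ ∀ b b', b ≠ b' → ¬ E (f b) (f b')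
    · right
      obtain ⟨i, s, hs, f, f1, f2, f3⟩ := hQ
      let h : (ℕ → Bool) → Y × (I → X) := fun b => (s.1, Function.update s.2 i (f b))
      have hm : Measurable h := by
        refine measurable_const.prodMk (measurable_pi_lambda _ fun j => ?_)
        by_cases hj : j = i
        · subst hj
          simpa [h] using f1
        · have : (fun b => Function.update s.2 i (f b) j) = fun _ => s.2 j := by
            funext b
            rw [Function.update_of_ne hj]
          rw [this]
          exact measurable_const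
      have hhA : ∀ b, h b ∈ A := by
        intro b
        refine hsw s (h b) rfl (fun j => ?_) (hSA i hs)
        by_cases hj : j = i
        · subst hj
          simpa [h] using f2 b
        · have : (h b).2 j = s.2 j := Function.update_of_ne hj _ _
          rw [this]
          exact hF.refl _
      refine perfect_of_sections hW hm hhA fun b => ?_
      have hsub : {b' | Lab T E (h b) (h b')} ⊆ ⋃ j : I, {b' | E ((h b).2 j) (f b')} := by
        rintro b' ⟨π, hπ, hπE⟩
        obtain ⟨ρ, -, -, h4⟩ := hT.symm _ _ _ hπ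
        have := hπE (ρ i)
        rw [h4] at this
        have h5 : (h b').2 i = f b' := by simp [h]
        rw [h5] at this
        exact mem_iUnion.2 ⟨ρ i, this⟩
      refine (countable_iUnion fun j => Set.Subsingleton.countable ?_).mono hsub
      intro b1 hb1 b2 hb2
      by_contra hne
      exact f3 b1 b2 hne (hE.trans (hE.symm hb1) hb2)
    · have hK : ∀ i, ∀ s ∈ S i, ∃ K : Set X, K.Countable ∧ ∀ x, F (s.2 i) x → ∃ k ∈ K, E x k := by
        intro i s hs
        rcases hFE (s.2 i) with ⟨K, -, hK1, hK2⟩ | ⟨f, f1, f2, f3⟩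
        · exact ⟨K, hK1, hK2⟩
        · exact absurd ⟨i, s, hs, f, f1, f2, f3⟩ hQ
      rcases A.eq_empty_or_nonempty with hAe | ⟨a0, ha0⟩
      · left
        exact ⟨∅, empty_subset _, countable_empty, fun x hx => by rw [hAe] at hx; exact hx.elim⟩
      choose! K hKc hK2 using hK
      let D : Set X := ⋃ i, ⋃ s ∈ S i, K i s
      have hDc : D.Countable := countable_iUnion fun i => (hSc i).biUnion fun s hs => hKc i s hs
      have hD : ∀ z ∈ A, ∀ i, ∃ k ∈ D, E (z.2 i) k := by
        intro z hz i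
        obtain ⟨s, hs, hsF⟩ := hS2 i z hz
        obtain ⟨k, hk, hkE⟩ := hK2 i s hs (z.2 i) (hF.symm hsF)
        exact ⟨k, mem_iUnion.2 ⟨i, mem_biUnion hs hk⟩, hkE⟩
      obtain ⟨k0, hk0, -⟩ := hD a0 ha0 (Classical.arbitrary I)
      obtain ⟨d, hd⟩ := hDc.exists_eq_range ⟨k0, hk0⟩
      -- canonical names of the classes
      have hr : ∀ n, ∃ m, E (d m) (d n) := fun n => ⟨n, hE.refl _⟩
      let r : ℕ → ℕ := fun n => Nat.find (hr n)
      have hr1 : ∀ n, E (d (r n)) (d n) := fun n => Nat.find_spec (hr n)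
      have hr2 : ∀ m n, E (d m) (d n) → r m = r n := by
        intro m n h
        have : ∀ k, E (d k) (d m) ↔ E (d k) (d n) := fun k =>
          ⟨fun h' => hE.trans h' h, fun h' => hE.trans h' (hE.symm h)⟩
        apply le_antisymm
        · exact Nat.find_min' _ ((this _).2 (hr1 n))
        · exact Nat.find_min' _ ((this _).1 (hr1 m))
      let Φ : Y × (I → ℕ) → Y × (I → X) := fun z => (z.1, fun i => d (z.2 i))
      have hΦ : Measurable Φ := by
        refine measurable_fst.prodMk (measurable_pi_lambda _ fun i => ?_)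
        exact (measurable_from_top (f := d)).comp ((measurable_pi_apply i).comp measurable_snd)
      let A0 : Set (Y × (I → ℕ)) := {z | Φ z ∈ A ∧ ∀ i, r (z.2 i) = z.2 i}
      have hA0m : MeasurableSet A0 := by
        have : A0 = (Φ ⁻¹' A) ∩ ⋂ i, {z | r (z.2 i) = z.2 i} := by
          ext z
          simp [A0]
        rw [this]
        refine (hΦ hA).inter (MeasurableSet.iInter fun i => ?_)
        have hmi : Measurable fun z : Y × (I → ℕ) => z.2 i :=
          (measurable_pi_apply i).comp measurable_snd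
        exact hmi (MeasurableSet.of_discrete (s := {n : ℕ | r n = n}))
      have hlab : ∀ z z' : Y × (I → ℕ), Lab T (fun m n : ℕ => m = n) z z' →
          Lab T E (Φ z) (Φ z') := by
        rintro z z' ⟨π, h1, h2⟩
        refine ⟨π, h1, fun i => ?_⟩
        show E (d (z.2 i)) (d (z'.2 (π i)))
        rw [h2 i]
        exact hE.refl _
      have hlab' : ∀ z ∈ A0, ∀ z' ∈ A0, Lab T E (Φ z) (Φ z') →
          Lab T (fun m n : ℕ => m = n) z z' := by
        rintro z hz z' hz' ⟨π, h1, h2⟩
        refine ⟨π, h1, fun i => ?_⟩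
        have := hr2 _ _ (h2 i)
        rwa [hz.2, hz'.2] at this
      have hfind : ∀ z ∈ A, ∃ z0 ∈ A0, Lab T E z (Φ z0) := by
        intro z hz
        have h1 : ∀ i, ∃ n, E (z.2 i) (d n) := by
          intro i
          obtain ⟨k, hk, hkE⟩ := hD z hz i
          rw [hd] at hk
          obtain ⟨n, rfl⟩ := hk
          exact ⟨n, hkE⟩
        choose κ hκ using h1
        have hL : Lab T E z (Φ (z.1, fun i => r (κ i))) :=
          ⟨id, hT.refl _, fun i => hE.trans (hκ i) (hE.symm (hr1 _))⟩
        refine ⟨(z.1, fun i => r (κ i)), ⟨hinv z hz _ hL, fun i => ?_⟩, hL⟩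
        exact hr2 _ _ (hr1 _)
      rcases hYV A0 hA0m (fun z hz => hA0 _ hz.1) (fun z hz z' hzz' => by
        refine ⟨hinv _ hz.1 _ (hlab _ _ hzz'), ?_⟩
        obtain ⟨π, h1, h2⟩ := hzz'
        obtain ⟨ρ, -, -, h5⟩ := hT.symm _ _ _ h1
        intro i
        have := h2 (ρ i)
        rw [h5] at this
        rw [← this]
        exact hz.2 _) with ⟨S0, hS0, hS0c, hS02⟩ | ⟨f, f1, f2, f3⟩
      · left
        refine ⟨Φ '' S0, ?_, hS0c.image _, fun z hz => ?_⟩
        · rintro _ ⟨z, hz, rfl⟩
          exact (hS0 hz).1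
        · obtain ⟨z0, hz0, hL⟩ := hfind z hz
          obtain ⟨s, hs, hLs⟩ := hS02 z0 hz0
          exact ⟨_, ⟨s, hs, rfl⟩, hWe.trans hL (hlab _ _ hLs)⟩
      · right
        exact ⟨fun b => Φ (f b), hΦ.comp f1, fun b => (f2 b).1, fun b b' hb hc =>
          f3 b b' hb (hlab' _ (f2 b) _ (f2 b') hc)⟩

end Pool.Agent.Q214.WR
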