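import Pool.Agent.Q214.WR.B
import Pool.Agent.H566M.All

set_option autoImplicit false

/-!
Labelled sums over linear orders with a monotone relation, and the action of wreath products.
-/

namespace Pool.Agent.Q214.WR

open Set Filter Topology MeasureTheory Pool.Agent.H579R3.SV

/-- linear orders on `ℕ` with a binary relation -/
abbrev Skel : Type := (ℕ → ℕ → Bool) × (ℕ → ℕ → Bool)

structure IsMono (x : Skel) : Prop where
  irrefl : ∀ m, x.1 m m = false
  trans : ∀ m n k, x.1 m n = true → x.1 n k = true → x.1 m k = true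
  total : ∀ m n, m ≠ n → x.1 m n = true ∨ x.1 n m = true
  left : ∀ m n k, x.1 m n = true → x.2 n k = true → x.2 m k = true
  right : ∀ m n k, x.2 m n = true → x.1 n k = true → x.2 m k = true

/-- the isomorphisms -/
def SkT (x : Skel) (π : ℕ → ℕ) (y : Skel) : Prop :=
  ∃ σ : Equiv.Perm ℕ, (∀ m, π m = σ m) ∧ (∀ m n, y.1 (σ m) (σ n) = x.1 m n) ∧
    ∀ m n, y.2 (σ m) (σ n) = x.2 m n

theorem SkT_grp : Grp SkT where
  refl y := ⟨Equiv.refl _, fun _ => rfl, fun _ _ => rfl, fun _ _ => rfl⟩
  symm := by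
    rintro y π y' ⟨σ, h1, h2, h3⟩
    refine ⟨σ.symm, ⟨σ.symm, fun _ => rfl, fun m n => ?_, fun m n => ?_⟩, fun i => ?_, fun i => ?_⟩
    · rw [← h2, σ.apply_symm_apply, σ.apply_symm_apply]
    · rw [← h3, σ.apply_symm_apply, σ.apply_symm_apply]
    · rw [h1, σ.symm_apply_apply]
    · rw [h1, σ.apply_symm_apply]
  trans := by
    rintro y π y' ρ y'' ⟨σ, h1, h2, h3⟩ ⟨τ, h4, h5, h6⟩
    refine ⟨σ.trans τ, fun m => ?_, fun m n => ?_, fun m n => ?_⟩
    · show ρ (π m) = τ (σ m)
      rw [h4, h1]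
    · show y''.1 (τ (σ m)) (τ (σ n)) = _
      rw [h5, h2]
    · show y''.2 (τ (σ m)) (τ (σ n)) = _
      rw [h6, h3]

theorem SkT_iff (x : Skel) (π : ℕ → ℕ) (y : Skel) : SkT x π y ↔
    Function.Injective π ∧ Function.Surjective π ∧ (∀ m n, y.1 (π m) (π n) = x.1 m n) ∧
      ∀ m n, y.2 (π m) (π n) = x.2 m n := by
  constructor
  · rintro ⟨σ, h1, h2, h3⟩
    have : π = σ := funext h1
    subst this
    exact ⟨σ.injective, σ.surjective, h2, h3⟩
  · rintro ⟨h1, h2, h3, h4⟩
    exact ⟨Equiv.ofBijective π ⟨h1, h2⟩, fun _ => rfl, h3, h4⟩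

theorem SkT_analytic : letI : TopologicalSpace ℕ := ⊥
    AnalyticSet {q : Skel × (ℕ → ℕ) × Skel | SkT q.1 q.2.1 q.2.2} := by
  have key : AnalyticSet {q : Skel × (ℕ → ℕ) × Skel | SkT q.1 q.2.1 q.2.2} := by
    letI : MeasurableSpace (Skel × (ℕ → ℕ) × Skel) := borel _
    haveI : BorelSpace (Skel × (ℕ → ℕ) × Skel) := ⟨rfl⟩
    have i1 : SecondCountableTopology (Skel × (ℕ → ℕ) × Skel) := inferInstance
    have i2 : TopologicalSpace.IsCompletelyMetrizableSpace (Skel × (ℕ → ℕ) × Skel) := inferInstance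
    have : PolishSpace (Skel × (ℕ → ℕ) × Skel) :=
      { toSecondCountableTopology := i1, toIsCompletelyMetrizableSpace := i2 }
    have e1 : {q : Skel × (ℕ → ℕ) × Skel | SkT q.1 q.2.1 q.2.2} =
        ((⋂ m, ⋂ n, {q : Skel × (ℕ → ℕ) × Skel | q.2.1 m = q.2.1 n → m = n}) ∩
          (⋂ n, ⋃ m, {q : Skel × (ℕ → ℕ) × Skel | q.2.1 m = n})) ∩
        ((⋂ m, ⋂ n, ⋃ a, ⋃ b, {q : Skel × (ℕ → ℕ) × Skel | (q.2.1 m, q.2.1 n) = (a, b)} ∩
          {q : Skel × (ℕ → ℕ) × Skel | q.2.2.1 a b = q.1.1 m n}) ∩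
        (⋂ m, ⋂ n, ⋃ a, ⋃ b, {q : Skel × (ℕ → ℕ) × Skel | (q.2.1 m, q.2.1 n) = (a, b)} ∩
          {q : Skel × (ℕ → ℕ) × Skel | q.2.2.2 a b = q.1.2 m n})) := by
      ext q
      rw [Set.mem_ofPred_eq, SkT_iff]
      simp only [mem_inter_iff, mem_iInter, mem_iUnion, Set.mem_ofPred_eq, Prod.mk.injEq]
      constructor
      · rintro ⟨h1, h2, h3, h4⟩
        exact ⟨⟨fun m n h => h1 h, h2⟩, fun m n => ⟨_, _, ⟨rfl, rfl⟩, h3 m n⟩,
          fun m n => ⟨_, _, ⟨rfl, rfl⟩, h4 m n⟩⟩
      · rintro ⟨⟨h1, h2⟩, h3, h4⟩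
        refine ⟨fun m n h => h1 m n h, h2, fun m n => ?_, fun m n => ?_⟩
        · obtain ⟨a, b, ⟨h5, h6⟩, h7⟩ := h3 m n
          rw [h5, h6]
          exact h7
        · obtain ⟨a, b, ⟨h5, h6⟩, h7⟩ := h4 m n
          rw [h5, h6]
          exact h7
    have c1 : ∀ m, Continuous fun q : Skel × (ℕ → ℕ) × Skel => q.2.1 m := fun m => by fun_prop
    have c2 : ∀ m n, Continuous fun q : Skel × (ℕ → ℕ) × Skel => q.1.1 m n := fun m n => by fun_prop
    have c3 : ∀ m n, Continuous fun q : Skel × (ℕ → ℕ) × Skel => q.1.2 m n := fun m n => by fun_prop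
    have c4 : ∀ m n, Continuous fun q : Skel × (ℕ → ℕ) × Skel => q.2.2.1 m n := fun m n => by
      fun_prop
    have c5 : ∀ m n, Continuous fun q : Skel × (ℕ → ℕ) × Skel => q.2.2.2 m n := fun m n => by
      fun_prop
    have hb : ∀ f g : Skel × (ℕ → ℕ) × Skel → Bool, Continuous f → Continuous g →
        MeasurableSet {q | f q = g q} := fun f g hf hg => (isClosed_eq hf hg).measurableSet
    have hn : ∀ f g : Skel × (ℕ → ℕ) × Skel → ℕ × ℕ, Continuous f → Continuous g →
        MeasurableSet {q | f q = g q} := fun f g hf hg => (isClosed_eq hf hg).measurableSet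
    have hn1 : ∀ f g : Skel × (ℕ → ℕ) × Skel → ℕ, Continuous f → Continuous g →
        MeasurableSet {q | f q = g q} := fun f g hf hg => (isClosed_eq hf hg).measurableSet
    rw [e1]
    refine MeasurableSet.analyticSet ?_
    refine (MeasurableSet.inter ?_ ?_).inter (MeasurableSet.inter ?_ ?_)
    · refine MeasurableSet.iInter fun m => MeasurableSet.iInter fun n => ?_
      have : {q : Skel × (ℕ → ℕ) × Skel | q.2.1 m = q.2.1 n → m = n} =
          {q | q.2.1 m = q.2.1 n}ᶜ ∪ {_q | m = n} := by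
        ext q
        simp only [mem_union, mem_compl_iff, Set.mem_ofPred_eq]
        exact imp_iff_not_or
      rw [this]
      exact (hn1 _ _ (c1 m) (c1 n)).compl.union (MeasurableSet.const _)
    · exact MeasurableSet.iInter fun n => MeasurableSet.iUnion fun m =>
        hn1 _ _ (c1 m) continuous_const
    · refine MeasurableSet.iInter fun m => MeasurableSet.iInter fun n =>
        MeasurableSet.iUnion fun a => MeasurableSet.iUnion fun b => MeasurableSet.inter ?_ ?_
      · exact hn _ _ ((c1 m).prodMk (c1 n)) continuous_const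
      · exact hb _ _ (c4 a b) (c2 m n)
    · refine MeasurableSet.iInter fun m => MeasurableSet.iInter fun n =>
        MeasurableSet.iUnion fun a => MeasurableSet.iUnion fun b => MeasurableSet.inter ?_ ?_
      · exact hn _ _ ((c1 m).prodMk (c1 n)) continuous_const
      · exact hb _ _ (c5 a b) (c3 m n)
  exact key

/-- colour of a point -/
noncomputable def col (u : ℕ → Bool) : ℕ := by
  classical
  exact if h : ∃ i, u i = true then Nat.find h else 0

theorem col_spec {u : ℕ → Bool} {k : ℕ} (h : ∀ i, u i = true ↔ i = k) : col u = k := by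
  classical
  have h1 : ∃ i, u i = true := ⟨k, (h k).2 rfl⟩
  unfold col
  rw [dif_pos h1]
  exact (h _).1 (Nat.find_spec h1)

theorem measurable_col : Measurable col := by
  classical
  have h2 : ∀ u : ℕ → Bool, ∃ i, u i = true ∨ ∀ j, u j = false := by
    intro u
    by_cases h : ∃ i, u i = true
    · obtain ⟨i, hi⟩ := h
      exact ⟨i, Or.inl hi⟩
    · push Not at h
      exact ⟨0, Or.inr fun j => by simpa using h j⟩
  have h3 : col = fun u => Nat.find (h2 u) := by
    funext u
    by_cases h : ∃ i, u i = true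
    · unfold col
      rw [dif_pos h]
      apply le_antisymm
      · refine Nat.find_min' h ?_
        rcases Nat.find_spec (h2 u) with h4 | h4
        · exact h4
        · obtain ⟨i, hi⟩ := h
          rw [h4] at hi
          exact absurd hi (by decide)
      · exact Nat.find_min' _ (Or.inl (Nat.find_spec h))
    · unfold col
      rw [dif_neg h]
      push Not at h
      symm
      rw [Nat.find_eq_zero]
      exact Or.inr fun j => by simpa using h j
  rw [h3]
  refine measurable_find h2 fun k => ?_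
  have : {u : ℕ → Bool | u k = true ∨ ∀ j, u j = false} =
      ((fun u : ℕ → Bool => u k) ⁻¹' {true}) ∪ ⋂ j, ((fun u : ℕ → Bool => u j) ⁻¹' {false}) := by
    ext u
    simp
  rw [this]
  exact ((measurable_pi_apply k) (MeasurableSet.singleton _)).union
    (MeasurableSet.iInter fun j => (measurable_pi_apply j) (MeasurableSet.singleton _))

open Pool.Agent.H566M (X3 LR Isom3)

/-- coding -/
def enc (z : Skel × (ℕ → ℕ)) : X3 := (z.1.1, z.1.2, fun i m => decide (z.2 m = i))

noncomputable def dec (x : X3) : Skel × (ℕ → ℕ) := ((x.1, x.2.1), fun m => col fun i => x.2.2 i m)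

theorem dec_enc (z : Skel × (ℕ → ℕ)) : dec (enc z) = z := by
  refine Prod.ext rfl (funext fun m => col_spec fun i => ?_)
  show decide (z.2 m = i) = true ↔ _
  rw [decide_eq_true_iff]
  exact eq_comm

theorem measurable_dec : Measurable dec := by
  refine Measurable.prodMk (measurable_fst.prodMk (measurable_fst.comp measurable_snd))
    (measurable_pi_lambda _ fun m => measurable_col.comp (measurable_pi_lambda _ fun i => ?_))
  exact (measurable_pi_apply m).comp ((measurable_pi_apply i).comp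
    (measurable_snd.comp measurable_snd))

theorem measurable_enc : Measurable enc := by
  refine (measurable_fst.comp measurable_fst).prodMk
    ((measurable_snd.comp measurable_fst).prodMk
      (measurable_pi_lambda _ fun i => measurable_pi_lambda _ fun m => ?_))
  have h1 : Measurable fun z : Skel × (ℕ → ℕ) => z.2 m := (measurable_pi_apply m).comp measurable_snd
  exact (measurable_from_top (f := fun k : ℕ => decide (k = i))).comp h1

theorem borel_X3 : BorelSpace X3 := by
  have h2 : BorelSpace ((ℕ → ℕ → Bool) × (ℕ → ℕ → Bool)) := inferInstance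
  have h3 : SecondCountableTopology (ℕ → ℕ → Bool) := inferInstance
  have h4 : SecondCountableTopology ((ℕ → ℕ → Bool) × (ℕ → ℕ → Bool)) := inferInstance
  exact Prod.borelSpace

/-- the dichotomy for linear orders with a monotone relation and labels in `ℕ` -/
theorem skel_nat (V : Set (Skel × (ℕ → ℕ))) (hV : MeasurableSet V)
    (hV0 : ∀ z ∈ V, z.1 ∈ {x : Skel | IsMono x})
    (hinv : ∀ z ∈ V, ∀ z', Lab SkT (fun m n : ℕ => m = n) z z' → z' ∈ V) :
    Dich (Lab SkT (fun m n : ℕ => m = n)) V := by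
  classical
  have := borel_X3
  let B : Set X3 := {x | dec x ∈ V ∧ enc (dec x) = x}
  have hB : MeasurableSet B :=
    (measurable_dec hV).inter (measurableSet_eq_fun (measurable_enc.comp measurable_dec)
      measurable_id)
  have hiso : ∀ (z : Skel × (ℕ → ℕ)) (y : X3) (σ : Equiv.Perm ℕ), Isom3 σ (enc z) y →
      enc (dec y) = y ∧ Lab SkT (fun m n : ℕ => m = n) z (dec y) := by
    rintro z y σ ⟨h1, h2, h3⟩
    have h3' : ∀ i m, y.2.2 i m = decide (z.2 (σ.symm m) = i) := by
      intro i m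
      have := h3 i (σ.symm m)
      rw [σ.apply_symm_apply] at this
      exact this
    have hc : ∀ m, (dec y).2 m = z.2 (σ.symm m) := by
      intro m
      refine col_spec fun i => ?_
      show y.2.2 i m = true ↔ _
      rw [h3', decide_eq_true_iff]
      exact eq_comm
    refine ⟨?_, σ, ⟨σ, fun _ => rfl, h1, h2⟩, fun m => ?_⟩
    · refine Prod.ext rfl (Prod.ext rfl (funext fun i => funext fun m => ?_))
      show decide ((dec y).2 m = i) = y.2.2 i m
      rw [hc, h3']
    · rw [hc, σ.symm_apply_apply]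
  have hinvB : ∀ x ∈ B, ∀ (y : X3) (σ : Equiv.Perm ℕ), Isom3 σ x y → y ∈ B := by
    rintro x ⟨h1, h2⟩ y σ h3
    rw [← h2] at h3
    obtain ⟨h4, h5⟩ := hiso _ _ _ h3
    exact ⟨hinv _ h1 _ h5, h4⟩
  have hLR : ∀ x ∈ B, LR x := by
    rintro x ⟨h1, -⟩
    have h2 : IsMono (dec x).1 := hV0 _ h1
    exact ⟨h2.irrefl, h2.trans, h2.total, h2.left, h2.right⟩
  have hsymm : ∀ (σ : Equiv.Perm ℕ) (x y : X3), Isom3 σ x y → Isom3 σ.symm y x := by
    rintro σ x y ⟨h1, h2, h3⟩
    refine ⟨fun m n => ?_, fun m n => ?_, fun i m => ?_⟩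
    · rw [← h1, σ.apply_symm_apply, σ.apply_symm_apply]
    · rw [← h2, σ.apply_symm_apply, σ.apply_symm_apply]
    · rw [← h3, σ.apply_symm_apply]
  rcases Pool.Agent.H566M.outM B hB hLR hinvB with ⟨f, hf⟩ | ⟨c, hc1, hc2, hc3⟩
  · left
    refine ⟨(fun n => dec (f n)) '' {n | f n ∈ B}, ?_, (to_countable _).image _, fun z hz => ?_⟩
    · rintro _ ⟨n, hn, rfl⟩
      exact hn.1
    · have hzB : enc z ∈ B := by
        refine ⟨?_, ?_⟩
        · rw [dec_enc]; exact hz
        · rw [dec_enc]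
      obtain ⟨n, σ, hσ⟩ := hf _ hzB
      have h1 := hsymm _ _ _ hσ
      have h2 := hinvB _ hzB _ _ h1
      exact ⟨_, ⟨n, h2, rfl⟩, (hiso _ _ _ h1).2⟩
  · right
    refine ⟨fun b => dec (c b), measurable_dec.comp hc1.measurable, fun b => (hc2 b).1,
      fun b b' hbb hL => hbb (hc3 b b' ?_)⟩
    obtain ⟨π, ⟨σ, h1, h2, h3⟩, h4⟩ := hL
    refine ⟨σ, ?_⟩
    rw [← (hc2 b).2, ← (hc2 b').2]
    refine ⟨h2, h3, fun i m => ?_⟩
    show decide ((dec (c b')).2 (σ m) = i) = decide ((dec (c b)).2 m = i)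
    have := h4 m
    rw [h1] at this
    rw [this]

end Pool.Agent.Q214.WR
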