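import Pool.Agent.Q215.WR.Stm

/-!
# Project WR (helper215), job COL (helper214)
-/

set_option autoImplicit false

open Set Topology Filter

namespace Q214.WR.Col

open Pool.Agent.Q215.WR

/-- left end points of the gaps -/
def Lf (K : Set ℝ) : Set ℝ := {a | a ∈ K ∧ ∃ b ∈ K, a < b ∧ ∀ z ∈ K, ¬ (a < z ∧ z < b)}

lemma noiso {K : Set ℝ} (hlim : ∀ x ∈ K, Lim K x) {x s : ℝ} (hx : x ∈ Lf K) (hs : s < x)
    (h : ∀ z ∈ K, ¬ (s < z ∧ z < x)) : False := by
  obtain ⟨hxK, b, hb, hxb, hgap⟩ := hx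
  obtain ⟨z, hz, hzx, hzε⟩ := hlim x hxK (min (x - s) (b - x))
    (lt_min (by linarith) (by linarith))
  rw [abs_lt] at hzε
  have h1 := min_le_left (x - s) (b - x)
  have h2 := min_le_right (x - s) (b - x)
  rcases lt_or_gt_of_ne hzx with h3 | h3
  · exact h z hz ⟨by linarith, h3⟩
  · exact hgap z hz ⟨h3, by linarith⟩

lemma gapL {K : Set ℝ} (hK : IsClosed K) (hint : interior K = ∅) {s t : ℝ} (hs : s ∈ K)
    (ht : t ∈ K) (hst : s < t) : ∃ a ∈ Lf K, s ≤ a ∧ a < t := by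
  have h1 : ∃ w, s < w ∧ w < t ∧ w ∉ K := by
    by_contra hcon
    push Not at hcon
    have : Ioo s t ⊆ interior K := interior_maximal (fun w hw => hcon w hw.1 hw.2) isOpen_Ioo
    rw [hint] at this
    exact this (show (s + t) / 2 ∈ Ioo s t from ⟨by linarith, by linarith⟩)
  obtain ⟨w, hsw, hwt, hwK⟩ := h1
  obtain ⟨a, ⟨haK, has, haw⟩, hmax⟩ := (isCompact_Icc.inter_left hK :
    IsCompact (K ∩ Icc s w)).exists_isGreatest ⟨s, hs, le_rfl, hsw.le⟩
  obtain ⟨b, ⟨hbK, hbw, hbt⟩, hmin⟩ := (isCompact_Icc.inter_left hK :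
    IsCompact (K ∩ Icc w t)).exists_isLeast ⟨t, ht, hwt.le, le_rfl⟩
  have haw' : a < w := lt_of_le_of_ne haw fun h => hwK (h ▸ haK)
  have hbw' : w < b := lt_of_le_of_ne hbw fun h => hwK (h ▸ hbK)
  refine ⟨a, ⟨haK, b, hbK, by linarith, ?_⟩, has, by linarith⟩
  rintro z hz ⟨hz1, hz2⟩
  rcases le_or_gt z w with h | h
  · have := hmax ⟨hz, by linarith, h⟩
    linarith
  · have := hmin ⟨hz, h.le, by linarith⟩
    linarith

lemma countL (K : Set ℝ) : (Lf K).Countable := by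
  have h : ∀ a, ∃ b, a ∈ Lf K → b ∈ K ∧ a < b ∧ ∀ z ∈ K, ¬ (a < z ∧ z < b) := by
    intro a
    by_cases ha : a ∈ Lf K
    · obtain ⟨-, b, hb⟩ := ha
      exact ⟨b, fun _ => hb⟩
    · exact ⟨0, fun h => absurd h ha⟩
  choose f hf using h
  apply Set.PairwiseDisjoint.countable_of_Ioo (y := f)
  · have key : ∀ a ∈ Lf K, ∀ a' ∈ Lf K, a < a' → Disjoint (Ioo a (f a)) (Ioo a' (f a')) := by
      intro a ha a' ha' haa
      rw [Set.disjoint_left]
      rintro z ⟨hz1, hz2⟩ ⟨hz3, hz4⟩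
      exact (hf a ha).2.2 a' ha'.1 ⟨haa, by linarith⟩
    intro a ha a' ha' hne
    rcases lt_or_gt_of_ne hne with h | h
    · exact key a ha a' ha' h
    · exact (key a' ha' a ha h).symm
  · intro a ha
    exact (hf a ha).2.1

theorem col : S_col := by
  intro K hK hint hunb hlim
  -- the order of the left end points
  have hcount : Countable (Lf K) := (countL K).to_subtype
  have hdense : DenselyOrdered (Lf K) := by
    refine ⟨?_⟩
    rintro ⟨a, ha⟩ ⟨a', ha'⟩ haa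
    have haa' : a < a' := haa
    obtain ⟨haK, b, hbK, hab, hgap⟩ := ha
    have hba : b ≤ a' := by
      by_contra h
      exact hgap a' ha'.1 ⟨haa', not_le.1 h⟩
    have hne : b ≠ a' := by
      rintro rfl
      exact noiso hlim ha' hab hgap
    obtain ⟨c, hc, hbc, hca⟩ := gapL hK hint hbK ha'.1 (lt_of_le_of_ne hba hne)
    exact ⟨⟨c, hc⟩, show a < c by linarith, hca⟩
  have hmin : NoMinOrder (Lf K) := by
    refine ⟨?_⟩
    rintro ⟨a, ha⟩
    obtain ⟨s, hs, hsa⟩ := (hunb a).2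
    obtain ⟨c, hc, -, hca⟩ := gapL hK hint hs ha.1 hsa
    exact ⟨⟨c, hc⟩, hca⟩
  have hbelow : ∀ x : ℝ, ∃ a ∈ Lf K, a < x := by
    intro x
    obtain ⟨t, ht, htx⟩ := (hunb x).2
    obtain ⟨s, hs, hst⟩ := (hunb t).2
    obtain ⟨c, hc, -, hca⟩ := gapL hK hint hs ht hst
    exact ⟨c, hc, by linarith⟩
  have habove : ∀ x : ℝ, ∃ a ∈ Lf K, x < a := by
    intro x
    obtain ⟨s, hs, hxs⟩ := (hunb x).1
    obtain ⟨t, ht, hst⟩ := (hunb s).1
    obtain ⟨c, hc, hsc, -⟩ := gapL hK hint hs ht hst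
    exact ⟨c, hc, by linarith⟩
  have hmax : NoMaxOrder (Lf K) := by
    refine ⟨?_⟩
    rintro ⟨a, ha⟩
    obtain ⟨c, hc, hac⟩ := habove a
    exact ⟨⟨c, hc⟩, hac⟩
  have hne : Nonempty (Lf K) := by
    obtain ⟨c, hc, -⟩ := habove 0
    exact ⟨⟨c, hc⟩⟩
  obtain ⟨ι⟩ := Order.iso_of_countable_dense (Lf K) ℚ
  -- the function
  set A : ℝ → Set ℝ := fun x => (fun a : Lf K => ((ι a : ℚ) : ℝ)) '' {a | (a : ℝ) ≤ x} with hA
  have hAne : ∀ x, (A x).Nonempty := by
    intro x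
    obtain ⟨a, ha, hax⟩ := hbelow x
    exact ⟨_, ⟨a, ha⟩, hax.le, rfl⟩
  have hAb : ∀ x, ∀ a : Lf K, x < (a : ℝ) → ∀ y ∈ A x, y ≤ ((ι a : ℚ) : ℝ) := by
    rintro x a hxa _ ⟨c, hc, rfl⟩
    have h9 : (c : ℝ) ≤ x := hc
    have hca : c ≤ a := (show (c : ℝ) ≤ (a : ℝ) from by linarith)
    have := ι.monotone hca
    show ((ι c : ℚ) : ℝ) ≤ ((ι a : ℚ) : ℝ)
    exact_mod_cast this
  have hAbd : ∀ x, BddAbove (A x) := by
    intro x
    obtain ⟨a, ha, hax⟩ := habove x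
    exact ⟨_, fun y hy => hAb x ⟨a, ha⟩ hax y hy⟩
  set q : ℝ → ℝ := fun x => sSup (A x) with hq
  have hle : ∀ x, ∀ a : Lf K, x < (a : ℝ) → q x ≤ ((ι a : ℚ) : ℝ) := fun x a hxa =>
    csSup_le (hAne x) (hAb x a hxa)
  have hge : ∀ x, ∀ a : Lf K, (a : ℝ) ≤ x → ((ι a : ℚ) : ℝ) ≤ q x := fun x a hax =>
    le_csSup (hAbd x) ⟨a, hax, rfl⟩
  have hqa : ∀ a : Lf K, q a = ((ι a : ℚ) : ℝ) := by
    intro a
    apply le_antisymm
    · refine csSup_le (hAne _) ?_
      rintro _ ⟨c, hc, rfl⟩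
      have := ι.monotone (show c ≤ a from hc)
      show ((ι c : ℚ) : ℝ) ≤ ((ι a : ℚ) : ℝ)
      exact_mod_cast this
    · exact hge _ a le_rfl
  have hmono : Monotone q := by
    intro x y hxy
    refine csSup_le_csSup (hAbd y) (hAne x) ?_
    rintro _ ⟨c, hc, rfl⟩
    exact ⟨c, le_trans hc hxy, rfl⟩
  have hrat : ∀ r : ℚ, ∃ x, q x = r := by
    intro r
    refine ⟨(ι.symm r : Lf K), ?_⟩
    rw [hqa, ι.apply_symm_apply]
  have hcont : Continuous q := by
    apply hmono.continuous_of_denseRange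
    refine Rat.isDenseEmbedding_coe_real.dense.mono ?_
    rintro _ ⟨r, rfl⟩
    exact hrat r
  refine ⟨q, hmono, hcont, ?_, ?_⟩
  · intro y
    obtain ⟨r1, hr1⟩ := exists_rat_lt y
    obtain ⟨r2, hr2⟩ := exists_rat_gt y
    obtain ⟨x1, hx1⟩ := hrat r1
    obtain ⟨x2, hx2⟩ := hrat r2
    exact mem_range_of_exists_le_of_exists_ge hcont ⟨x1, by rw [hx1]; exact hr1.le⟩
      ⟨x2, by rw [hx2]; exact hr2.le⟩
  · intro x y hxy
    constructor
    · rintro hqxy z hz ⟨hxz, hzy⟩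
      -- two points of `K` in `(x, y)`
      obtain ⟨z', hz', hne', hzε⟩ := hlim z hz (min (z - x) (y - z))
        (lt_min (by linarith) (by linarith))
      have h1 := min_le_left (z - x) (y - z)
      have h2 := min_le_right (z - x) (y - z)
      rw [abs_lt] at hzε
      obtain ⟨s, t, hs, ht, hst, hxs, hty⟩ : ∃ s t, s ∈ K ∧ t ∈ K ∧ s < t ∧ x < s ∧ t < y := by
        rcases lt_or_gt_of_ne hne' with h | h
        · exact ⟨z', z, hz', hz, h, by linarith, hzy⟩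
        · exact ⟨z, z', hz, hz', h, hxz, by linarith⟩
      obtain ⟨a, ha, hsa, hat⟩ := gapL hK hint hs ht hst
      obtain ⟨haK, b, hbK, hab, hgap⟩ := ha
      have hbt : b ≤ t := by
        by_contra h
        exact hgap t ht ⟨hat, not_le.1 h⟩
      obtain ⟨b', hb', hbne, hbε⟩ := hlim b hbK (min (b - a) (y - b))
        (lt_min (by linarith) (by linarith))
      have h3 := min_le_left (b - a) (y - b)
      have h4 := min_le_right (b - a) (y - b)
      rw [abs_lt] at hbε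
      have hbb : b < b' := by
        rcases lt_or_gt_of_ne hbne with h | h
        · exact absurd ⟨by linarith, h⟩ (hgap b' hb')
        · exact h
      obtain ⟨a2, ha2, hba2, ha2b⟩ := gapL hK hint hbK hb' hbb
      have e1 := hle x ⟨a, haK, b, hbK, hab, hgap⟩ (show x < a by linarith)
      have e2 := hge y ⟨a2, ha2⟩ (show a2 ≤ y by linarith)
      have e3 : ι ⟨a, haK, b, hbK, hab, hgap⟩ < ι ⟨a2, ha2⟩ :=
        ι.strictMono (show (⟨a, haK, b, hbK, hab, hgap⟩ : Lf K) < ⟨a2, ha2⟩ from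
          show a < a2 by linarith)
      have e4 : ((ι ⟨a, haK, b, hbK, hab, hgap⟩ : ℚ) : ℝ) < ((ι ⟨a2, ha2⟩ : ℚ) : ℝ) := by
        exact_mod_cast e3
      linarith
    · intro h
      show sSup (A x) = sSup (A y)
      congr 1
      apply Subset.antisymm
      · rintro _ ⟨c, hc, rfl⟩
        exact ⟨c, le_trans hc hxy.le, rfl⟩
      · rintro _ ⟨c, hc, rfl⟩
        refine ⟨c, ?_, rfl⟩
        show (c : ℝ) ≤ x
        by_contra hcx
        have hcy : (c : ℝ) ≤ y := hc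
        have hcy' : (c : ℝ) = y := by
          rcases hcy.lt_or_eq with h5 | h5
          · exact absurd ⟨not_le.1 hcx, h5⟩ (h c c.2.1)
          · exact h5
        refine noiso hlim c.2 (not_le.1 hcx) ?_
        rw [hcy']
        exact h

end Q214.WR.Col
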