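import Pool.Agent.Q214.WR.C

set_option autoImplicit false

/-!
The dichotomy for wreath products.
-/

namespace Pool.Agent.Q214.WR

open Set Filter Topology MeasureTheory Pool.Agent.H579R3.SV

section

variable (H Y I : Type) [TopologicalSpace H] [Group H] [IsTopologicalGroup H] [PolishSpace H]
  [MeasurableSpace H] [BorelSpace H] [TopologicalSpace Y] [PolishSpace Y] [MeasurableSpace Y]
  [BorelSpace Y] [MulAction H Y] [MeasurableSMul₂ H Y]
  [Countable I] [MeasurableSpace I] [DiscreteMeasurableSpace I] [MulAction H I]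
  [MeasurableSMul₂ H I]

/-- the transitions given by an action -/
def TH (y : Y) (π : I → I) (y' : Y) : Prop := ∃ h : H, h • y = y' ∧ ∀ i, π i = h • i

omit [TopologicalSpace H] [IsTopologicalGroup H] [PolishSpace H] [MeasurableSpace H] [BorelSpace H]
  [TopologicalSpace Y] [PolishSpace Y] [MeasurableSpace Y] [BorelSpace Y]
  [MeasurableSMul₂ H Y] [Countable I] [MeasurableSpace I] [DiscreteMeasurableSpace I]
  [MeasurableSMul₂ H I] in
theorem TH_grp : Grp (TH H Y I) where
  refl y := ⟨1, one_smul _ _, fun _ => (one_smul _ _).symm⟩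
  symm := by
    rintro y π y' ⟨h, rfl, h2⟩
    refine ⟨fun i => h⁻¹ • i, ⟨h⁻¹, inv_smul_smul _ _, fun _ => rfl⟩, fun i => ?_, fun i => ?_⟩
    · rw [h2]; exact inv_smul_smul _ _
    · rw [h2]; exact smul_inv_smul _ _
  trans := by
    rintro y π y' ρ y'' ⟨h, rfl, h2⟩ ⟨k, rfl, h4⟩
    refine ⟨k * h, mul_smul _ _ _, fun i => ?_⟩
    show ρ (π i) = _
    rw [h4, h2, mul_smul]

theorem TH_analytic : letI : TopologicalSpace I := ⊥
    AnalyticSet {q : Y × (I → I) × Y | TH H Y I q.1 q.2.1 q.2.2} := by
  letI : TopologicalSpace I := ⊥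
  haveI : DiscreteTopology I := ⟨rfl⟩
  haveI : BorelSpace I := by
    constructor
    apply le_antisymm
    · intro s _
      exact MeasurableSpace.measurableSet_generateFrom (isOpen_discrete s)
    · intro s _
      exact MeasurableSet.of_discrete
  have hm : Measurable fun p : H × Y => (p.2, (fun i : I => p.1 • i), p.1 • p.2) := by
    refine measurable_snd.prodMk (Measurable.prodMk (measurable_pi_lambda _ fun i => ?_)
      (measurable_fst.smul measurable_snd))
    exact measurable_fst.smul measurable_const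
  have h1 : {q : Y × (I → I) × Y | TH H Y I q.1 q.2.1 q.2.2} =
      (fun p : H × Y => (p.2, (fun i : I => p.1 • i), p.1 • p.2)) '' Set.univ := by
    ext ⟨y, π, y'⟩
    constructor
    · rintro ⟨h, h1, h2⟩
      exact ⟨(h, y), trivial, Prod.ext rfl (Prod.ext (funext fun i => (h2 i).symm) h1)⟩
    · rintro ⟨⟨h, y1⟩, -, h2⟩
      have e1 : y1 = y := congrArg Prod.fst h2
      have e2 : (fun i : I => h • i) = π := congrArg (fun q => q.2.1) h2
      have e3 : h • y1 = y' := congrArg (fun q => q.2.2) h2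
      exact ⟨h, by rw [← e3, e1], fun i => (congrFun e2 i).symm⟩
  rw [h1]
  exact MeasurableSet.univ.analyticSet_image hm

end

theorem orbit_analytic (G X : Type) [TopologicalSpace G] [Group G] [IsTopologicalGroup G]
    [PolishSpace G] [MeasurableSpace G] [BorelSpace G] [TopologicalSpace X] [PolishSpace X]
    [MeasurableSpace X] [BorelSpace X] [MulAction G X] [MeasurableSMul₂ G X] :
    AnalyticSet {q : X × X | ∃ g : G, g • q.1 = q.2} := by
  have hm : Measurable fun p : G × X => (p.2, p.1 • p.2) :=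
    measurable_snd.prodMk (measurable_fst.smul measurable_snd)
  have : {q : X × X | ∃ g : G, g • q.1 = q.2} = (fun p : G × X => (p.2, p.1 • p.2)) '' Set.univ := by
    ext ⟨x, x'⟩
    constructor
    · rintro ⟨g, hg⟩
      exact ⟨(g, x), trivial, Prod.ext rfl hg⟩
    · rintro ⟨⟨g, x1⟩, -, h⟩
      have h1 : x1 = x := congrArg Prod.fst h
      have h2 : g • x1 = x' := congrArg Prod.snd h
      exact ⟨g, by rw [← h2, h1]⟩
  rw [this]
  exact MeasurableSet.univ.analyticSet_image hm

theorem orbit_equiv (G X : Type) [Group G] [MulAction G X] :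
    Equivalence (fun x x' : X => ∃ g : G, g • x = x') :=
  ⟨fun x => ⟨1, one_smul _ _⟩, by
    rintro x x' ⟨g, rfl⟩
    exact ⟨g⁻¹, inv_smul_smul _ _⟩, by
    rintro x x' x'' ⟨g, rfl⟩ ⟨g', rfl⟩
    exact ⟨g' * g, mul_smul _ _ _⟩⟩

end Pool.Agent.Q214.WR
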