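import Pool.Agent.Q215.WR.Stm

/-!
# Project WR (helper215), job GEN (helper214)
-/

set_option autoImplicit false

open Set Topology Filter

namespace Q214.WR

open Pool.Agent.Q215.WR

lemma Two.mono {M M' : Set ℝ} (h : M ⊆ M') {x : ℝ} (hx : Two M x) : Two M' x := by
  intro ε hε
  obtain ⟨⟨z, hz, h1⟩, w, hw, h2⟩ := hx ε hε
  exact ⟨⟨z, h hz, h1⟩, w, h hw, h2⟩

lemma Lim.mono {M M' : Set ℝ} (h : M ⊆ M') {x : ℝ} (hx : Lim M x) : Lim M' x := by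
  intro ε hε
  obtain ⟨z, hz, h1⟩ := hx ε hε
  exact ⟨z, h hz, h1⟩

lemma Two.lim {M : Set ℝ} {x : ℝ} (hx : Two M x) : Lim M x := by
  intro ε hε
  obtain ⟨⟨z, hz, h1, h2⟩, -⟩ := hx ε hε
  refine ⟨z, hz, h2.ne, ?_⟩
  rw [abs_lt]
  constructor <;> linarith

theorem gen : S_gen := by
  intro hstep S T N0 D H hHc hHS hN0 hN0S hT hDc hDd hDS hP
  have hst := hstep S T N0 D hDd hDS hP
  -- the choice functions
  have hst' : ∀ K : {K : Set ℝ // IsClosed K ∧ K ⊆ S}, ∃ FM : Set ℝ × Set ℝ,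
      IsClosed FM.1 ∧ (K : Set ℝ) ⊆ FM.1 ∧ FM.1 ⊆ S ∧ FM.2 ⊆ T ∧ FM.2.Countable ∧
      FM.2 ⊆ FM.1 \ (K : Set ℝ) ∧ (∀ x ∈ FM.2, Two FM.2 x) ∧ (∀ x ∈ (K : Set ℝ), Two FM.2 x) ∧
      (∀ x ∈ FM.1 \ (K : Set ℝ), Lim FM.2 x) ∧ (∀ x ∈ FM.1 \ (K : Set ℝ), x ∉ N0) ∧
      ∀ R : ℝ, (∃ x ∈ FM.2, R < x) ∧ ∃ x ∈ FM.2, x < R := by
    intro K
    obtain ⟨F, M, h⟩ := hst K.1 K.2.1 K.2.2
    exact ⟨(F, M), h⟩
  choose fm hfm using hst'
  have hHsub : ∀ n, H n ⊆ S := fun n => hHS ▸ subset_iUnion H n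
  obtain ⟨K, K0, KS⟩ : ∃ K : ℕ → {K : Set ℝ // IsClosed K ∧ K ⊆ S}, (K 0).1 = H 0 ∧
      ∀ n, (K (n + 1)).1 = (fm (K n)).1 ∪ H (n + 1) := by
    refine ⟨Nat.rec ⟨H 0, hHc 0, hHsub 0⟩ (fun n k => ⟨(fm k).1 ∪ H (n + 1),
      (hfm k).1.union (hHc _), union_subset (hfm k).2.2.1 (hHsub _)⟩), rfl, fun n => rfl⟩
  obtain ⟨F, hF⟩ : ∃ F : ℕ → Set ℝ, ∀ n, F n = (fm (K n)).1 := ⟨_, fun n => rfl⟩
  obtain ⟨M, hM⟩ : ∃ M : ℕ → Set ℝ, ∀ n, M n = (fm (K n)).2 := ⟨_, fun n => rfl⟩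
  obtain ⟨L, hL⟩ : ∃ L : ℕ → Set ℝ, ∀ n, L n = (K n : Set ℝ) := ⟨_, fun n => rfl⟩
  have hL0 : L 0 = H 0 := by rw [hL, K0]
  have hLS : ∀ n, L (n + 1) = F n ∪ H (n + 1) := by
    intro n
    rw [hL, KS, hF]
  have P : ∀ n, IsClosed (F n) ∧ L n ⊆ F n ∧ F n ⊆ S ∧ M n ⊆ T ∧ (M n).Countable ∧
      M n ⊆ F n \ L n ∧ (∀ x ∈ M n, Two (M n) x) ∧ (∀ x ∈ L n, Two (M n) x) ∧
      (∀ x ∈ F n \ L n, Lim (M n) x) ∧ (∀ x ∈ F n \ L n, x ∉ N0) ∧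
      ∀ R : ℝ, (∃ x ∈ M n, R < x) ∧ ∃ x ∈ M n, x < R := by
    intro n
    rw [hF, hM, hL]
    exact hfm (K n)
  have hFL : ∀ n, F n ⊆ L (n + 1) := by
    intro n
    rw [hLS]
    exact subset_union_left
  have hmono1 : ∀ n, F n ⊆ F (n + 1) := fun n => (hFL n).trans (P (n + 1)).2.1
  have hmono : Monotone F := monotone_nat_of_le_succ hmono1
  have hHL : ∀ n, H n ⊆ L n := by
    intro n
    rcases n with - | n
    · rw [hL0]
    · rw [hLS]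
      exact subset_union_right
  have hprev : ∀ n, prev F n ⊆ L n := by
    intro n
    rcases n with - | n
    · exact empty_subset _
    · exact hFL n
  have hFS : ∀ n, F n ⊆ S := fun n => (P n).2.2.1
  have hMF : ∀ n, M n ⊆ F n := fun n => (P n).2.2.2.2.2.1.trans sdiff_subset
  have hMN : ∀ n, M n ⊆ N0 ∪ ⋃ n, M n := fun n => (subset_iUnion M n).trans subset_union_right
  have hU : (⋃ n, F n) = S := by
    apply Subset.antisymm
    · exact iUnion_subset hFS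
    · rw [← hHS]
      exact iUnion_mono fun n => (hHL n).trans (P n).2.1
  have htwo : ∀ n, ∀ x ∈ F n, Two (M (n + 1)) x := fun n x hx =>
    (P (n + 1)).2.2.2.2.2.2.2.1 x (hFL n hx)
  refine ⟨N0 ∪ ⋃ n, M n, F, ?_, subset_union_left, ?_⟩
  · refine ⟨fun n => (P n).1, hmono1, hU, ?_, hDc, ?_, hDS, hDd, ?_, ?_, ?_, ?_, ?_⟩
    · exact hN0.union (countable_iUnion fun n => (P n).2.2.2.2.1)
    · refine union_subset hN0S (iUnion_subset fun n => (hMF n).trans (hFS n))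
    · rw [dense_iff_exists_between]
      intro u v huv
      obtain ⟨M', -, ⟨x, hx⟩, -, -, hM'S, hM'I, -⟩ := hP u v huv
      have hxS : x ∈ S := hM'S (subset_closure hx)
      obtain ⟨hxu, hxv⟩ := hM'I (subset_closure hx)
      rw [← hU] at hxS
      obtain ⟨n, hn⟩ := mem_iUnion.1 hxS
      obtain ⟨-, z, hz, hz1, hz2⟩ := htwo n x hn (v - x) (by linarith)
      exact ⟨z, hMN _ hz, by linarith, by linarith⟩
    · intro R
      obtain ⟨⟨x, hx, h1⟩, y, hy, h2⟩ := (P 0).2.2.2.2.2.2.2.2.2.2 R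
      exact ⟨⟨x, hMF 0 hx, h1⟩, y, hMF 0 hy, h2⟩
    · intro n x hx
      have hsub : M n ⊆ (N0 ∪ ⋃ n, M n) ∩ (F n \ prev F n) := fun z hz =>
        ⟨hMN n hz, hMF n hz, fun hzp => ((P n).2.2.2.2.2.1 hz).2 (hprev n hzp)⟩
      apply Lim.mono hsub
      by_cases hxL : x ∈ L n
      · exact Two.lim ((P n).2.2.2.2.2.2.2.1 x hxL)
      · exact (P n).2.2.2.2.2.2.2.2.1 x ⟨hx, hxL⟩
    · intro n x hx
      refine Two.mono ?_ (htwo n x hx)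
      intro z hz
      exact ⟨hMN _ hz, hMF _ hz, fun hzp => ((P (n + 1)).2.2.2.2.2.1 hz).2 (hFL n hzp)⟩
    · intro n x hx hxN
      rcases hxN with hx0 | hxM
      · have hxL : x ∈ L n := by
          by_contra hxL
          exact (P n).2.2.2.2.2.2.2.2.2.1 x ⟨hx, hxL⟩ hx0
        exact Two.mono (hMF n) ((P n).2.2.2.2.2.2.2.1 x hxL)
      · obtain ⟨m, hm⟩ := mem_iUnion.1 hxM
        rcases lt_trichotomy m n with h | h | h
        · obtain ⟨k, rfl⟩ : ∃ k, n = k + 1 := ⟨n - 1, by omega⟩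
          have hxL : x ∈ L (k + 1) := hFL k (hmono (by omega : m ≤ k) (hMF m hm))
          exact Two.mono (hMF _) ((P (k + 1)).2.2.2.2.2.2.2.1 x hxL)
        · subst h
          exact Two.mono (hMF m) ((P m).2.2.2.2.2.2.1 x hm)
        · exfalso
          obtain ⟨k, rfl⟩ : ∃ k, m = k + 1 := ⟨m - 1, by omega⟩
          exact ((P (k + 1)).2.2.2.2.2.1 hm).2 (hFL k (hmono (by omega : n ≤ k) hx))
  · refine union_subset subset_union_left (iUnion_subset fun n => ?_)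
    exact (P n).2.2.2.1.trans subset_union_right

end Q214.WR
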