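import Pool.Agent.Q215.WR.Stm

/-!
# Project WR (helper215), jobs PERF and FUN2 (helper214)
-/

set_option autoImplicit false

open Set Topology Filter

namespace Q214.WR

open Pool.Agent.Q215.WR

lemma not_countable_cantor : ¬ Countable (ℕ → Bool) := by
  intro h
  have h1 := Cardinal.mk_le_aleph0_iff.2 h
  have h2 : Cardinal.mk (ℕ → Bool) = Cardinal.continuum := by
    clear h h1
    simp
  rw [h2] at h1
  exact h1.not_gt Cardinal.aleph0_lt_continuum

lemma perfect_not_countable {C : Set ℝ} (hC : Perfect C) (hne : C.Nonempty) :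
    ¬ C.Countable := by
  obtain ⟨f, hf, -, hinj⟩ := hC.exists_nat_bool_injection hne
  intro h
  apply not_countable_cantor
  have h1 : (range f).Countable := h.mono hf
  have : Countable (range f) := h1.to_subtype
  exact (Set.rangeFactorization_injective.2 hinj).countable

/-- nonempty relatively open parts of perfect sets are uncountable -/
lemma open_not_countable {D : Set ℝ} (hD : Perfect D) {a b x : ℝ} (hx : x ∈ D) (ha : a < x)
    (hb : x < b) : ¬ (Ioo a b ∩ D).Countable := by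
  obtain ⟨a', ha1, ha2⟩ := exists_between ha
  obtain ⟨b', hb1, hb2⟩ := exists_between hb
  obtain ⟨h1, h2⟩ := hD.closure_nhds_inter x hx (show x ∈ Ioo a' b' from ⟨ha2, hb1⟩) isOpen_Ioo
  intro h
  apply perfect_not_countable h1 h2
  refine h.mono ?_
  intro y hy
  have hy1 : y ∈ closure (Ioo a' b') := closure_mono inter_subset_left hy
  have hy2 : y ∈ closure D := closure_mono inter_subset_right hy
  rw [hD.closed.closure_eq] at hy2
  have hy3 : y ∈ Icc a' b' := by
    have := closure_mono (Ioo_subset_Icc_self (a := a') (b := b')) hy1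
    rwa [isClosed_Icc.closure_eq] at this
  exact ⟨⟨ha1.trans_le hy3.1, hy3.2.trans_lt hb2⟩, hy2⟩

/-- an uncountable Borel set contains an image of the Cantor space -/
lemma cantor_in {s : Set ℝ} (hm : MeasurableSet s) (hunc : ¬ s.Countable) :
    ∃ f : (ℕ → Bool) → ℝ, range f ⊆ s ∧ Continuous f ∧ Function.Injective f := by
  obtain ⟨t', ht', hpol, hcl, -⟩ := hm.isClopenable
  obtain ⟨f, hf, hfc, hinj⟩ :=
    @IsClosed.exists_nat_bool_injection_of_not_countable ℝ t' hpol _ hcl hunc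
  exact ⟨f, hf, continuous_le_rng ht' hfc, hinj⟩

/-- a perfect nonempty subset of `X \ N0` -/
lemma exists_perfect {X : Set ℝ} (hX : IsCompact X) (hne : X.Nonempty)
    (hlim : ∀ x ∈ X, Lim X x) {N0 : Set ℝ} (hN0 : N0.Countable) :
    ∃ D : Set ℝ, Perfect D ∧ D.Nonempty ∧ D ⊆ X \ N0 := by
  have hP : Perfect X := by
    refine ⟨hX.isClosed, fun x hx => ?_⟩
    rw [accPt_iff_nhds]
    intro U hU
    obtain ⟨ε, hε, hεU⟩ := Metric.mem_nhds_iff.1 hU
    obtain ⟨z, hz, hzx, hzε⟩ := hlim x hx ε hε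
    exact ⟨z, ⟨hεU (by rw [Metric.mem_ball, Real.dist_eq]; exact hzε), hz⟩, hzx⟩
  have hunc : ¬ (X \ N0).Countable := by
    intro h
    apply perfect_not_countable hP hne
    refine (h.union hN0).mono ?_
    intro x hx
    by_cases hxN : x ∈ N0
    · exact Or.inr hxN
    · exact Or.inl ⟨hx, hxN⟩
  have hm : MeasurableSet (X \ N0) := hX.measurableSet.diff hN0.measurableSet
  obtain ⟨f, hf, hfc', hinj⟩ := cantor_in hm hunc
  have hcomp : IsCompact (range f) := isCompact_range hfc'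
  obtain ⟨V, D, hV, hD, hVD⟩ := exists_countable_union_perfect_of_isClosed hcomp.isClosed
  refine ⟨D, hD, ?_, ?_⟩
  · by_contra hDe
    rw [Set.not_nonempty_iff_eq_empty] at hDe
    rw [hDe, union_empty] at hVD
    apply not_countable_cantor
    have h1 : (range f).Countable := hVD ▸ hV
    have : Countable (range f) := h1.to_subtype
    exact (Set.rangeFactorization_injective.2 hinj).countable
  · refine Subset.trans ?_ hf
    rw [hVD]
    exact subset_union_right

theorem perf : S_perf := by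
  intro X hX hne hlim N0 hN0
  obtain ⟨D, hD, hDne, hDX⟩ := exists_perfect hX hne hlim hN0
  set Z : Set ℝ := {x ∈ D | 𝓝[D ∩ Ioi x] x = ⊥} ∪ {x ∈ D | 𝓝[D ∩ Iio x] x = ⊥} with hZ
  have hZc : Z.Countable :=
    countable_setOfPred_isolated_right_within.union countable_setOfPred_isolated_left_within
  -- every open interval that meets `D` meets `D \ Z`
  have hmeet : ∀ a b x : ℝ, x ∈ D → a < x → x < b → ∃ y ∈ D \ Z, a < y ∧ y < b := by
    intro a b x hx ha hb
    by_contra hcon
    push Not at hcon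
    apply open_not_countable hD hx ha hb
    refine hZc.mono ?_
    rintro y ⟨⟨hya, hyb⟩, hyD⟩
    by_contra hyZ
    exact absurd hyb (not_lt.2 (hcon y ⟨hyD, hyZ⟩ hya))
  obtain ⟨M, hM, hMc, hMd⟩ :=
    (TopologicalSpace.IsSeparable.of_separableSpace (D \ Z)).exists_countable_dense_subset
  have hMeet : ∀ a b x : ℝ, x ∈ D → a < x → x < b → ∃ y ∈ M, a < y ∧ y < b := by
    intro a b x hx ha hb
    obtain ⟨y, hy, hya, hyb⟩ := hmeet a b x hx ha hb
    obtain ⟨z, hz, hzM⟩ := mem_closure_iff.1 (hMd hy) (Ioo a b) isOpen_Ioo ⟨hya, hyb⟩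
    exact ⟨z, hzM, hz.1, hz.2⟩
  have hMD : M ⊆ D := hM.trans sdiff_subset
  have hcD : closure M ⊆ D := by
    have := closure_mono hMD
    rwa [hD.closed.closure_eq] at this
  refine ⟨M, hMc, ?_, fun x hx => (hDX (hMD hx)).1, ?_, fun x hx => (hDX (hcD hx)).1,
    fun x hx => (hDX (hcD hx)).2⟩
  · obtain ⟨x, hx⟩ := hDne
    obtain ⟨y, hy, -⟩ := hMeet (x - 1) (x + 1) x hx (by linarith) (by linarith)
    exact ⟨y, hy⟩
  · intro x hx ε hε
    have hxZ : x ∉ Z := (hM hx).2
    have hxD : x ∈ D := (hM hx).1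
    constructor
    · have h1 : 𝓝[D ∩ Iio x] x ≠ ⊥ := fun h => hxZ (Or.inr ⟨hxD, h⟩)
      have h2 : (𝓝[D ∩ Iio x] x).NeBot := ⟨h1⟩
      have h3 : x ∈ closure (D ∩ Iio x) := mem_closure_iff_nhdsWithin_neBot.2 h2
      obtain ⟨y, hy, hyD, hyx⟩ := mem_closure_iff.1 h3 (Ioo (x - ε) (x + ε)) isOpen_Ioo
        ⟨by linarith, by linarith⟩
      obtain ⟨z, hz, hz1, hz2⟩ := hMeet (x - ε) x y hyD hy.1 hyx
      exact ⟨z, hz, hz1, hz2⟩
    · have h1 : 𝓝[D ∩ Ioi x] x ≠ ⊥ := fun h => hxZ (Or.inl ⟨hxD, h⟩)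
      have h2 : (𝓝[D ∩ Ioi x] x).NeBot := ⟨h1⟩
      have h3 : x ∈ closure (D ∩ Ioi x) := mem_closure_iff_nhdsWithin_neBot.2 h2
      obtain ⟨y, hy, hyD, hyx⟩ := mem_closure_iff.1 h3 (Ioo (x - ε) (x + ε)) isOpen_Ioo
        ⟨by linarith, by linarith⟩
      obtain ⟨z, hz, hz1, hz2⟩ := hMeet x (x + ε) y hyD hyx hy.2
      exact ⟨z, hz, hz1, hz2⟩

/-! ### FUN2 -/

/-- constant sign on an interval without the value `q` -/
lemma sign_const {f : ℝ → ℝ} (hf : Continuous f) {q a b : ℝ} (hab : a < b)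
    (h : ∀ z, a < z → z < b → f z ≠ q) :
    (∀ z, a < z → z < b → f z < q) ∨ ∀ z, a < z → z < b → q < f z := by
  obtain ⟨l, hl1, hl2⟩ := exists_between hab
  have key : ∀ z, a < z → z < b → ∀ w, a < w → w < b → f z < q → q < f w → False := by
    intro z hz1 hz2 w hw1 hw2 hzq hwq
    have hq : q ∈ uIcc (f z) (f w) := by
      rw [uIcc_of_le (hzq.trans hwq).le]
      exact ⟨hzq.le, hwq.le⟩
    obtain ⟨v, hv, hvq⟩ := intermediate_value_uIcc hf.continuousOn hq
    have hv' : v ∈ Ioo a b := by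
      have := uIcc_subset_Icc (a₁ := z) (b₁ := w) (a₂ := min z w) (b₂ := max z w)
        ⟨min_le_left _ _, le_max_left _ _⟩ ⟨min_le_right _ _, le_max_right _ _⟩ hv
      exact ⟨(lt_min hz1 hw1).trans_le this.1, this.2.trans_lt (max_lt hz2 hw2)⟩
    exact h v hv'.1 hv'.2 hvq
  rcases lt_or_gt_of_ne (h l hl1 hl2) with hlq | hlq
  · left
    intro z hz1 hz2
    rcases lt_or_gt_of_ne (h z hz1 hz2) with hz | hz
    · exact hz
    · exact (key l hl1 hl2 z hz1 hz2 hlq hz).elim
  · right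
    intro z hz1 hz2
    rcases lt_or_gt_of_ne (h z hz1 hz2) with hz | hz
    · exact (key z hz1 hz2 l hl1 hl2 hz hlq).elim
    · exact hz

/-- strict local maxima are countable -/
lemma countable_max (f : ℝ → ℝ) :
    {x : ℝ | ∃ δ : ℝ, 0 < δ ∧ ∀ y, |y - x| < δ → y ≠ x → f y < f x}.Countable := by
  have h1 : {x : ℝ | ∃ δ : ℝ, 0 < δ ∧ ∀ y, |y - x| < δ → y ≠ x → f y < f x} ⊆
      ⋃ p : ℚ × ℚ, {x : ℝ | (p.1 : ℝ) < x ∧ x < p.2 ∧
        ∀ y, (p.1 : ℝ) < y → y < p.2 → y ≠ x → f y < f x} := by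
    rintro x ⟨δ, hδ, hx⟩
    obtain ⟨a, ha1, ha2⟩ := exists_rat_btwn (show x - δ < x by linarith)
    obtain ⟨b, hb1, hb2⟩ := exists_rat_btwn (show x < x + δ by linarith)
    refine mem_iUnion.2 ⟨(a, b), ha2, hb1, fun y hya hyb hyx => hx y ?_ hyx⟩
    rw [abs_lt]
    have h3 : (a : ℝ) < y := hya
    have h4 : y < (b : ℝ) := hyb
    constructor <;> linarith
  refine Countable.mono h1 (countable_iUnion fun p => Set.Subsingleton.countable ?_)
  rintro x ⟨hx1, hx2, hx⟩ y ⟨hy1, hy2, hy⟩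
  by_contra hne
  exact lt_asymm (hx y hy1 hy2 (Ne.symm hne)) (hy x hx1 hx2 hne)

theorem fun2 : S_fun2 := by
  rintro ⟨f0, hf0, hno⟩
  set E : Set ℝ := {x : ℝ | ∃ δ : ℝ, 0 < δ ∧ ∀ y, |y - x| < δ → y ≠ x → f0 y < f0 x} ∪
    {x : ℝ | ∃ δ : ℝ, 0 < δ ∧ ∀ y, |y - x| < δ → y ≠ x → -f0 y < -f0 x} with hE
  have hEc : E.Countable := (countable_max f0).union (countable_max fun x => -f0 x)
  have hbad : (⋃ x ∈ E, ⋃ q : ℚ, ({(q : ℝ) - f0 x} : Set ℝ)).Countable :=
    hEc.biUnion fun x _ => countable_iUnion fun q => countable_singleton _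
  obtain ⟨c, hc⟩ := (hbad.dense_compl ℝ).nonempty
  have hc' : ∀ x ∈ E, ∀ q : ℚ, f0 x + c ≠ q := by
    intro x hx q hq
    apply hc
    refine mem_iUnion₂.2 ⟨x, hx, mem_iUnion.2 ⟨q, ?_⟩⟩
    rw [mem_singleton_iff]
    linarith
  refine ⟨fun x => f0 x + c, hf0.add continuous_const, ?_, ?_⟩
  · intro x y hxy
    obtain ⟨hA, -⟩ := hno ((x + y) / 2) ((y - x) / 2) (by linarith)
    by_contra hcon
    push Not at hcon
    have hm := hcon ((x + y) / 2) (by linarith) (by linarith)
    rcases hA with ⟨z, hz1, hz2, hz3⟩ | ⟨z, hz1, hz2, hz3⟩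
    · have := hcon z (by linarith) (by linarith)
      linarith
    · have := hcon z (by linarith) (by linarith)
      linarith
  · intro q x hx ε hε
    have hx' : f0 x + c = q := hx
    by_contra hcon
    have hcon' : ∀ z, f0 z + c = q → z ≠ x → ε ≤ |z - x| := by
      intro z hz hzx
      by_contra hlt
      exact hcon ⟨z, hz, hzx, not_le.1 hlt⟩
    have hL := sign_const (f := fun x => f0 x + c) (q := (q : ℝ)) (hf0.add continuous_const)
      (show x - ε < x by linarith) (by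
      intro z hz1 hz2 hz
      have := hcon' z hz hz2.ne
      rw [abs_of_neg (by linarith)] at this
      linarith)
    have hR := sign_const (f := fun x => f0 x + c) (q := (q : ℝ)) (hf0.add continuous_const)
      (show x < x + ε by linarith) (by
      intro z hz1 hz2 hz
      have := hcon' z hz hz1.ne'
      rw [abs_of_pos (by linarith)] at this
      linarith)
    obtain ⟨hA, hB⟩ := hno x ε hε
    rcases hL with hL | hL <;> rcases hR with hR | hR
    · refine hc' x (Or.inl ⟨ε, hε, fun y hy hyx => ?_⟩) q hx'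
      rw [abs_lt] at hy
      rcases lt_or_gt_of_ne hyx with h | h
      · have := hL y (by linarith) h
        linarith
      · have := hR y h (by linarith)
        linarith
    · rcases hA with ⟨y, hy1, hy2, hy3⟩ | ⟨y, hy1, hy2, hy3⟩
      · have := hL y hy1 hy2
        linarith
      · have := hR y hy1 hy2
        linarith
    · rcases hB with ⟨y, hy1, hy2, hy3⟩ | ⟨y, hy1, hy2, hy3⟩
      · have := hL y hy1 hy2
        linarith
      · have := hR y hy1 hy2
        linarith
    · refine hc' x (Or.inr ⟨ε, hε, fun y hy hyx => ?_⟩) q hx'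
      rw [abs_lt] at hy
      rcases lt_or_gt_of_ne hyx with h | h
      · have := hL y (by linarith) h
        linarith
      · have := hR y h (by linarith)
        linarith

end Q214.WR
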