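import Pool.Agent.Q214.WR.GenP

/-!
# Project WR (helper215), job STEP (helper214)
-/

set_option autoImplicit false

open Set Topology Filter

namespace Q214.WR

open Pool.Agent.Q215.WR

/-- good pairs -/
def Good (H : Set ℝ) (i : ℕ × ℤ) : Prop :=
  (∀ h ∈ H, h * 2 ^ i.1 < i.2 - 1 ∨ (i.2 : ℝ) + 2 < h * 2 ^ i.1) ∧
    (i.1 = 0 ∨ ∃ h ∈ H, (i.2 : ℝ) - 5 ≤ h * 2 ^ i.1 ∧ h * 2 ^ i.1 ≤ i.2 + 6)

lemma exists_pow {η : ℝ} (hη : 0 < η) (c : ℝ) : ∃ n0 : ℕ, ∀ n, n0 ≤ n → c < η * 2 ^ n := by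
  obtain ⟨n0, h⟩ := pow_unbounded_of_one_lt (c / η) (show (1 : ℝ) < 2 by norm_num)
  refine ⟨n0, fun n hn => ?_⟩
  have h1 : (2 : ℝ) ^ n0 ≤ 2 ^ n := pow_le_pow_right₀ (by norm_num) hn
  rw [div_lt_iff₀ hη] at h
  nlinarith

lemma right_good {H : Set ℝ} {u y : ℝ} (hu : u ∈ H) (huy : u < y)
    (hfree : ∀ h ∈ H, h ≤ u ∨ y < h) : ∃ i : ℕ × ℤ, Good H i ∧
      ∀ z : ℝ, (i.2 : ℝ) < z * 2 ^ i.1 → z * 2 ^ i.1 < i.2 + 1 → u < z ∧ z < y := by
  obtain ⟨n0, hn0⟩ := exists_pow (sub_pos.2 huy) 12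
  have hn := hn0 (n0 + 1) (by omega)
  set n := n0 + 1 with hndef
  have h2 : (0 : ℝ) < 2 ^ n := by positivity
  have f1 := Int.floor_le (u * 2 ^ n)
  have f2 := Int.lt_floor_add_one (u * 2 ^ n)
  refine ⟨(n, ⌊u * 2 ^ n⌋ + 3), ⟨?_, Or.inr ⟨u, hu, ?_, ?_⟩⟩, ?_⟩
  · intro h hh
    push_cast
    rcases hfree h hh with h1 | h1
    · left
      have := mul_le_mul_of_nonneg_right h1 h2.le
      show h * 2 ^ n < _
      linarith
    · right
      have := mul_lt_mul_of_pos_right h1 h2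
      show _ < h * 2 ^ n
      linarith
  · push_cast
    show _ ≤ u * 2 ^ n
    linarith
  · push_cast
    show u * 2 ^ n ≤ _
    linarith
  · intro z hz1 hz2
    push_cast at hz1 hz2
    have hz1' : (⌊u * 2 ^ n⌋ : ℝ) + 3 < z * 2 ^ n := hz1
    have hz2' : z * 2 ^ n < (⌊u * 2 ^ n⌋ : ℝ) + 3 + 1 := hz2
    constructor
    · exact lt_of_mul_lt_mul_right (by linarith : u * 2 ^ n < z * 2 ^ n) h2.le
    · refine lt_of_mul_lt_mul_right (?_ : z * 2 ^ n < y * 2 ^ n) h2.le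
      have : y * 2 ^ n - u * 2 ^ n = (y - u) * 2 ^ n := by ring
      linarith

lemma left_good {H : Set ℝ} {u y : ℝ} (hu : u ∈ H) (huy : y < u)
    (hfree : ∀ h ∈ H, u ≤ h ∨ h < y) : ∃ i : ℕ × ℤ, Good H i ∧
      ∀ z : ℝ, (i.2 : ℝ) < z * 2 ^ i.1 → z * 2 ^ i.1 < i.2 + 1 → y < z ∧ z < u := by
  obtain ⟨n0, hn0⟩ := exists_pow (sub_pos.2 huy) 12
  have hn := hn0 (n0 + 1) (by omega)
  set n := n0 + 1 with hndef
  have h2 : (0 : ℝ) < 2 ^ n := by positivity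
  have f1 := Int.le_ceil (u * 2 ^ n)
  have f2 := Int.ceil_lt_add_one (u * 2 ^ n)
  refine ⟨(n, ⌈u * 2 ^ n⌉ - 4), ⟨?_, Or.inr ⟨u, hu, ?_, ?_⟩⟩, ?_⟩
  · intro h hh
    push_cast
    rcases hfree h hh with h1 | h1
    · right
      have := mul_le_mul_of_nonneg_right h1 h2.le
      show _ < h * 2 ^ n
      linarith
    · left
      have := mul_lt_mul_of_pos_right h1 h2
      show h * 2 ^ n < _
      linarith
  · push_cast
    show _ ≤ u * 2 ^ n
    linarith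
  · push_cast
    show u * 2 ^ n ≤ _
    linarith
  · intro z hz1 hz2
    push_cast at hz1 hz2
    have hz1' : (⌈u * 2 ^ n⌉ : ℝ) - 4 < z * 2 ^ n := hz1
    have hz2' : z * 2 ^ n < (⌈u * 2 ^ n⌉ : ℝ) - 4 + 1 := hz2
    constructor
    · refine lt_of_mul_lt_mul_right (?_ : y * 2 ^ n < z * 2 ^ n) h2.le
      have : u * 2 ^ n - y * 2 ^ n = (u - y) * 2 ^ n := by ring
      linarith
    · exact lt_of_mul_lt_mul_right (by linarith : z * 2 ^ n < u * 2 ^ n) h2.le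

/-- only finitely many good cells near a point outside `H` -/
lemma loc_fin {H : Set ℝ} {x δ : ℝ} (hδ : 0 < δ) (hx : ∀ h ∈ H, δ ≤ |h - x|) :
    {i : ℕ × ℤ | Good H i ∧ ∃ z : ℝ, |z - x| < δ / 2 ∧ (i.2 : ℝ) ≤ z * 2 ^ i.1 ∧
      z * 2 ^ i.1 ≤ i.2 + 1}.Finite := by
  obtain ⟨n0, hn0⟩ := exists_pow hδ 12
  set B : ℤ := ⌈2 ^ n0 * (|x| + δ) + 1⌉ with hB
  refine Set.Finite.subset ((Finset.range (n0 + 1) ×ˢ Finset.Icc (-B) B).finite_toSet) ?_
  rintro ⟨n, k⟩ ⟨⟨-, hg⟩, z, hz, hz1, hz2⟩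
  have hz1' : (k : ℝ) ≤ z * 2 ^ n := hz1
  have hz2' : z * 2 ^ n ≤ k + 1 := hz2
  have h2 : (0 : ℝ) < 2 ^ n := by positivity
  have hnn : n ≤ n0 := by
    by_contra hcon
    have hn := hn0 n (by omega)
    rcases hg with hg | ⟨h, hh, hg1, hg2⟩
    · exact hcon (by simpa using (show n ≤ n0 by simp only at hg; omega))
    · have hg1' : (k : ℝ) - 5 ≤ h * 2 ^ n := hg1
      have hg2' : h * 2 ^ n ≤ k + 6 := hg2
      have h3 : |h - z| * 2 ^ n ≤ 6 := by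
        have e : |h - z| * 2 ^ n = |h * 2 ^ n - z * 2 ^ n| := by
          rw [← sub_mul, abs_mul, abs_of_pos h2]
        rw [e, abs_le]
        constructor <;> linarith
      have h4 := hx h hh
      have h5 : |h - x| ≤ |h - z| + |z - x| := abs_sub_le _ _ _
      have h6 : δ / 2 < |h - z| := by linarith
      nlinarith
  have h3 : (2 : ℝ) ^ n ≤ 2 ^ n0 := pow_le_pow_right₀ (by norm_num) hnn
  have hzx : |z| ≤ |x| + δ := by
    have : |z| ≤ |z - x| + |x| := by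
      have := abs_add_le (z - x) x
      rwa [sub_add_cancel] at this
    linarith
  have hzb : |z * 2 ^ n| ≤ 2 ^ n0 * (|x| + δ) := by
    rw [abs_mul, abs_of_pos h2, mul_comm]
    exact mul_le_mul h3 hzx (abs_nonneg _) (by positivity)
  have hB' := Int.le_ceil (2 ^ n0 * (|x| + δ) + 1)
  rw [← hB] at hB'
  obtain ⟨b1, b2⟩ := abs_le.1 hzb
  simp only [Finset.coe_product, Finset.coe_range, Finset.coe_Icc, mem_prod, mem_Iio, mem_Icc]
  refine ⟨by omega, ?_, ?_⟩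
  · have : (-B : ℝ) ≤ k := by linarith
    exact_mod_cast this
  · have : (k : ℝ) ≤ B := by linarith
    exact_mod_cast this

theorem step : S_step := by
  classical
  intro S T N0 D hDd hDS hP H hHc hHS
  have hlt : ∀ i : ℕ × ℤ, (i.2 : ℝ) / 2 ^ i.1 < ((i.2 : ℝ) + 1) / 2 ^ i.1 := by
    intro i
    have : (0 : ℝ) < 2 ^ i.1 := by positivity
    rw [div_lt_div_iff_of_pos_right this]
    linarith
  choose M hMc hMn hMT hMt hMS hMI hM0 using fun i : ℕ × ℤ => hP _ _ (hlt i)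
  have hcell : ∀ i : ℕ × ℤ, ∀ z ∈ closure (M i), (i.2 : ℝ) < z * 2 ^ i.1 ∧ z * 2 ^ i.1 < i.2 + 1 := by
    intro i z hz
    have h2 : (0 : ℝ) < 2 ^ i.1 := by positivity
    obtain ⟨h3, h4⟩ := hMI i hz
    exact ⟨(div_lt_iff₀ h2).1 h3, (lt_div_iff₀ h2).1 h4⟩
  have hnH : ∀ i : ℕ × ℤ, Good H i → ∀ z ∈ closure (M i), z ∉ H := by
    intro i hi z hz hzH
    obtain ⟨h3, h4⟩ := hcell i z hz
    rcases hi.1 z hzH with h5 | h5 <;> linarith
  set F : Set ℝ := H ∪ ⋃ i : ℕ × ℤ, ⋃ _ : Good H i, closure (M i) with hF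
  set MM : Set ℝ := ⋃ i : ℕ × ℤ, ⋃ _ : Good H i, M i with hMM
  have hMM' : ∀ i : ℕ × ℤ, Good H i → M i ⊆ MM := fun i hi =>
    subset_iUnion₂ (s := fun i (_ : Good H i) => M i) i hi
  -- points of `M` near the points of `H`
  have hTwoH : ∀ x ∈ H, Two MM x := by
    intro x hx ε hε
    constructor
    · obtain ⟨y, hyD, hy1, hy2⟩ := hDd.exists_between (show x - ε < x by linarith)
      have hyH : y ∉ H := fun h => hDS y hyD (hHS h)
      have hcomp : IsCompact (H ∩ Icc y x) := isCompact_Icc.inter_left hHc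
      have hne : (H ∩ Icc y x).Nonempty := ⟨x, hx, hy2.le, le_rfl⟩
      obtain ⟨u, ⟨huH, huy, hux⟩, hmin⟩ := hcomp.exists_isLeast hne
      have hyu : y < u := lt_of_le_of_ne huy fun h => hyH (h ▸ huH)
      obtain ⟨i, hi, hiz⟩ := left_good huH hyu (fun h hh => by
        by_cases h1 : h < y
        · exact Or.inr h1
        · left
          by_cases h2 : h ≤ x
          · exact hmin ⟨hh, not_lt.1 h1, h2⟩
          · linarith)
      obtain ⟨z, hz⟩ := hMn i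
      obtain ⟨c1, c2⟩ := hcell i z (subset_closure hz)
      obtain ⟨z1, z2⟩ := hiz z c1 c2
      exact ⟨z, hMM' i hi hz, by linarith, by linarith⟩
    · obtain ⟨y, hyD, hy1, hy2⟩ := hDd.exists_between (show x < x + ε by linarith)
      have hyH : y ∉ H := fun h => hDS y hyD (hHS h)
      have hcomp : IsCompact (H ∩ Icc x y) := isCompact_Icc.inter_left hHc
      have hne : (H ∩ Icc x y).Nonempty := ⟨x, hx, le_rfl, hy1.le⟩
      obtain ⟨u, ⟨huH, hux, huy⟩, hmax⟩ := hcomp.exists_isGreatest hne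
      have hyu : u < y := lt_of_le_of_ne huy fun h => hyH (h ▸ huH)
      obtain ⟨i, hi, hiz⟩ := right_good huH hyu (fun h hh => by
        by_cases h1 : y < h
        · exact Or.inr h1
        · left
          by_cases h2 : x ≤ h
          · exact hmax ⟨hh, h2, not_lt.1 h1⟩
          · linarith)
      obtain ⟨z, hz⟩ := hMn i
      obtain ⟨c1, c2⟩ := hcell i z (subset_closure hz)
      obtain ⟨z1, z2⟩ := hiz z c1 c2
      exact ⟨z, hMM' i hi hz, by linarith, by linarith⟩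
  have hFH : ∀ x ∈ F \ H, ∃ i, Good H i ∧ x ∈ closure (M i) := by
    rintro x ⟨hxF, hxH⟩
    rcases hxF with hxF | hxF
    · exact absurd hxF hxH
    · obtain ⟨i, hi, hxi⟩ := mem_iUnion₂.1 hxF
      exact ⟨i, hi, hxi⟩
  refine ⟨F, MM, ?_, subset_union_left, ?_, ?_, ?_, ?_, ?_, hTwoH, ?_, ?_, ?_⟩
  · -- closed
    refine isClosed_of_closure_subset ?_
    intro x hx
    by_cases hxH : x ∈ H
    · exact Or.inl hxH
    right
    rw [hF, closure_union, hHc.closure_eq] at hx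
    have hx' : x ∈ closure (⋃ i : ℕ × ℤ, ⋃ _ : Good H i, closure (M i)) := hx.resolve_left hxH
    obtain ⟨δ, hδ, hδH⟩ : ∃ δ : ℝ, 0 < δ ∧ ∀ h ∈ H, δ ≤ |h - x| := by
      obtain ⟨δ, hδ, hb⟩ := Metric.isOpen_iff.1 hHc.isOpen_compl x hxH
      refine ⟨δ, hδ, fun h hh => ?_⟩
      by_contra hcon
      exact hb (show h ∈ Metric.ball x δ by
        rw [Metric.mem_ball, Real.dist_eq]; exact not_le.1 hcon) hh
    have hfin := loc_fin hδ hδH
    set I : Set (ℕ × ℤ) := {i : ℕ × ℤ | Good H i ∧ ∃ z : ℝ, |z - x| < δ / 2 ∧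
      (i.2 : ℝ) ≤ z * 2 ^ i.1 ∧ z * 2 ^ i.1 ≤ i.2 + 1} with hI
    have hcl : IsClosed (⋃ i ∈ I, closure (M i)) := hfin.isClosed_biUnion fun i _ => isClosed_closure
    have hsub : x ∈ ⋃ i ∈ I, closure (M i) := by
      rw [← hcl.closure_eq]
      rw [Metric.mem_closure_iff] at hx' ⊢
      intro ε hε
      obtain ⟨z, hz, hzε⟩ := hx' (min ε (δ / 2)) (lt_min hε (by linarith))
      obtain ⟨i, hi, hzi⟩ := mem_iUnion₂.1 hz
      refine ⟨z, mem_iUnion₂.2 ⟨i, ⟨hi, z, ?_, ?_, ?_⟩, hzi⟩, hzε.trans_le (min_le_left _ _)⟩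
      · rw [abs_sub_comm, ← Real.dist_eq]
        exact hzε.trans_le (min_le_right _ _)
      · exact (hcell i z hzi).1.le
      · exact (hcell i z hzi).2.le
    obtain ⟨i, hi, hxi⟩ := mem_iUnion₂.1 hsub
    exact mem_iUnion₂.2 ⟨i, hi.1, hxi⟩
  · exact union_subset hHS (iUnion₂_subset fun i _ => hMS i)
  · exact iUnion₂_subset fun i _ => hMT i
  · exact countable_iUnion fun i => countable_iUnion fun _ => hMc i
  · intro x hx
    obtain ⟨i, hi, hxi⟩ := mem_iUnion₂.1 hx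
    exact ⟨Or.inr (mem_iUnion₂.2 ⟨i, hi, subset_closure hxi⟩), hnH i hi x (subset_closure hxi)⟩
  · intro x hx
    obtain ⟨i, hi, hxi⟩ := mem_iUnion₂.1 hx
    exact Two.mono (hMM' i hi) (hMt i x hxi)
  · intro x hx
    obtain ⟨i, hi, hxi⟩ := hFH x hx
    apply Lim.mono (hMM' i hi)
    by_cases hxM : x ∈ M i
    · exact Two.lim (hMt i x hxM)
    · intro ε hε
      obtain ⟨z, hz, hzε⟩ := Metric.mem_closure_iff.1 hxi ε hε
      refine ⟨z, hz, fun h => hxM (h ▸ hz), ?_⟩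
      rw [abs_sub_comm, ← Real.dist_eq]
      exact hzε
  · intro x hx
    obtain ⟨i, hi, hxi⟩ := hFH x hx
    exact hM0 i x hxi
  · intro R
    constructor
    · have f1 := Int.floor_le R
      have f2 := Int.lt_floor_add_one R
      by_cases hg : Good H (0, ⌊R⌋ + 3)
      · obtain ⟨z, hz⟩ := hMn (0, ⌊R⌋ + 3)
        obtain ⟨c1, c2⟩ := hcell _ z (subset_closure hz)
        refine ⟨z, hMM' _ hg hz, ?_⟩
        simp only [pow_zero, mul_one] at c1
        push_cast at c1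
        linarith
      · have hg' : ¬ ∀ h ∈ H, h * 2 ^ 0 < ((⌊R⌋ + 3 : ℤ) : ℝ) - 1 ∨
            ((⌊R⌋ + 3 : ℤ) : ℝ) + 2 < h * 2 ^ 0 := fun h => hg ⟨h, Or.inl rfl⟩
        push Not at hg'
        obtain ⟨h, hh, h1, h2⟩ := hg'
        obtain ⟨-, z, hz, hz1, -⟩ := hTwoH h hh 1 one_pos
        refine ⟨z, hz, ?_⟩
        simp only [pow_zero, mul_one] at h1
        push_cast at h1
        linarith
    · have f1 := Int.floor_le R
      have f2 := Int.lt_floor_add_one R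
      by_cases hg : Good H (0, ⌊R⌋ - 4)
      · obtain ⟨z, hz⟩ := hMn (0, ⌊R⌋ - 4)
        obtain ⟨c1, c2⟩ := hcell _ z (subset_closure hz)
        refine ⟨z, hMM' _ hg hz, ?_⟩
        simp only [pow_zero, mul_one] at c2
        push_cast at c2
        linarith
      · have hg' : ¬ ∀ h ∈ H, h * 2 ^ 0 < ((⌊R⌋ - 4 : ℤ) : ℝ) - 1 ∨
            ((⌊R⌋ - 4 : ℤ) : ℝ) + 2 < h * 2 ^ 0 := fun h => hg ⟨h, Or.inl rfl⟩
        push Not at hg'
        obtain ⟨h, hh, h1, h2⟩ := hg'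
        obtain ⟨⟨z, hz, -, hz1⟩, -⟩ := hTwoH h hh 1 one_pos
        refine ⟨z, hz, ?_⟩
        simp only [pow_zero, mul_one] at h2
        push_cast at h2
        linarith

end Q214.WR
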